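import Pool.Agent.R562.CT.Tree

/-!
# Singular matrices are accepted with `n ^ 2` multiplications
-/

set_option autoImplicit false
set_option linter.unusedSectionVars false

namespace Pool.Agent.R562.CT

open MvPolynomial Filter Pool.Agent.W966.Vf Pool.Agent.W966.Vg Pool.Agent.R562.ND

section

variable {K ι : Type} [Field K] [Fintype ι]

/-- Guess `N` elements, and continue. -/
def guessN (next : NTree K ι) : ℕ → NTree K ι
  | 0 => next
  | N + 1 => .guess (guessN next N)

lemma guessN_acc (next : NTree K ι) (x : ι → K) (N : ℕ) : ∀ (l : ℕ) (g : ℕ → K) (L : ℕ),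
    (guessN next N).Acc x l g L ↔ ∃ g' : ℕ → K, (∀ s, s < l ∨ l + N ≤ s → g' s = g s) ∧
      next.Acc x (l + N) g' L := by
  induction N with
  | zero =>
    intro l g L
    constructor
    · intro h
      exact ⟨g, fun _ _ => rfl, h⟩
    · rintro ⟨g', h1, h2⟩
      have : g' = g := funext fun s => h1 s (by omega)
      rw [this] at h2
      exact h2
  | succ N ih =>
    intro l g L
    have h1 : (guessN next (N + 1)).Acc x l g L ↔ ∃ v : K,
        (guessN next N).Acc x (l + 1) (Function.update g l v) L := Iff.rfl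
    rw [h1]
    constructor
    · rintro ⟨v, hv⟩
      obtain ⟨g', h2, h3⟩ := (ih _ _ _).mp hv
      refine ⟨g', fun s hs => ?_, by rwa [show l + (N + 1) = l + 1 + N by ring]⟩
      rw [h2 s (by omega), Function.update_of_ne (by omega)]
    · rintro ⟨g', h2, h3⟩
      refine ⟨g' l, (ih _ _ _).mpr ⟨g', fun s hs => ?_, by
        rwa [show l + 1 + N = l + (N + 1) by ring]⟩⟩
      by_cases hsl : s = l
      · subst hsl
        rw [Function.update_self]
      · rw [Function.update_of_ne hsl]
        exact h2 s (by omega)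

/-- Test whether all linear combinations `o 0, …, o (N - 1)` vanish. -/
def tests (o : ℕ → LF K ι) : ℕ → NTree K ι
  | 0 => .accept
  | N + 1 => .test (o N) (tests o N) .reject

lemma tests_acc (o : ℕ → LF K ι) (x : ι → K) (l : ℕ) (g : ℕ → K) (L N : ℕ) :
    (tests o N).Acc x l g L ↔ ∀ s < N, (o s).val x l g = 0 := by
  induction N with
  | zero =>
    constructor
    · intro _ s hs
      omega
    · intro _
      trivial
  | succ N ih =>
    have h1 : (tests o (N + 1)).Acc x l g L ↔ ((o N).val x l g = 0 ∧ (tests o N).Acc x l g L) ∨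
        ((o N).val x l g ≠ 0 ∧ False) := Iff.rfl
    rw [h1, ih]
    constructor
    · rintro (⟨h2, h3⟩ | ⟨-, h⟩)
      · intro s hs
        rcases Nat.lt_succ_iff_lt_or_eq.mp hs with h4 | rfl
        · exact h3 s h4
        · exact h2
      · exact h.elim
    · intro h
      exact Or.inl ⟨h N (by omega), fun s hs => h s (by omega)⟩

/-- **A computation decides whether all results are zero.** -/
theorem tree_of_comps {M : ℕ} {V : Type} [Fintype V] {f : V → MvPolynomial ι K}
    (h : NSComp K ι V M f) :
    ∃ t : NTree K ι, ∀ x, t.Accepts x M ↔ ∀ v, eval x (f v) = 0 := by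
  classical
  obtain ⟨a, b, o, g, hg, ho⟩ := h
  let e := Fintype.equivFin V
  let o' : ℕ → LF K ι := fun s => if hs : s < Fintype.card V then o (e.symm ⟨s, hs⟩) else ⟨0, 0, 0⟩
  refine ⟨chain a b (tests o' (Fintype.card V)) M 0, fun x => ?_⟩
  have h1 : ∀ k ≤ M, ∀ s < k, run a b x k s = eval x (g s) := by
    intro k
    induction k with
    | zero => intro _ s hs; omega
    | succ k ih =>
      intro hk s hs
      have ih' := ih (by omega)
      show Function.update (run a b x k) k
        ((a k).val x k (run a b x k) * (b k).val x k (run a b x k)) s = _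
      rcases Nat.lt_succ_iff_lt_or_eq.mp hs with h2 | rfl
      · rw [Function.update_of_ne h2.ne, ih' s h2]
      · rw [Function.update_self, hg s (by omega), map_mul, eval_val, eval_val,
          val_congr2 (a s) x s ih', val_congr2 (b s) x s ih']
  have h2 := chain_acc a b (tests o' (Fintype.card V)) x M 0 M
  have h3 : (chain a b (tests o' (Fintype.card V)) M 0).Accepts x M ↔
      M ≤ M ∧ (tests o' (Fintype.card V)).Acc x (0 + M) (run a b x (0 + M)) (M - M) := h2
  rw [h3, zero_add, tests_acc]
  have h4 : ∀ v, (o v).val x M (run a b x M) = eval x (f v) := by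
    intro v
    rw [ho v, eval_val]
    exact val_congr2 _ _ _ (h1 M le_rfl)
  constructor
  · rintro ⟨-, h5⟩ v
    rw [← h4]
    have := h5 (e v) (e v).2
    simp only [o', dif_pos (e v).2, Fin.eta, Equiv.symm_apply_apply] at this
    exact this
  · intro h5
    refine ⟨le_rfl, fun s hs => ?_⟩
    simp only [o', dif_pos hs]
    rw [h4, h5]

/-- Sums of products of affine forms. -/
theorem nscomp_sum {R V : Type} [Fintype R] (cp cq : R → K) (xp xq : R → ι → K)
    (c₀ : V → K) (x₀ : V → ι → K) (κ : V → R → K) :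
    NSComp K ι V (Fintype.card R) fun v => C (c₀ v) + ∑ i, C (x₀ v i) * X i +
      ∑ r, C (κ v r) * ((C (cp r) + ∑ i, C (xp r i) * X i) *
        (C (cq r) + ∑ i, C (xq r i) * X i)) := by
  classical
  let e := Fintype.equivFin R
  let N := Fintype.card R
  refine ⟨fun s => if h : s < N then ⟨cp (e.symm ⟨s, h⟩), xp (e.symm ⟨s, h⟩), 0⟩ else ⟨0, 0, 0⟩,
    fun s => if h : s < N then ⟨cq (e.symm ⟨s, h⟩), xq (e.symm ⟨s, h⟩), 0⟩ else ⟨0, 0, 0⟩,
    fun v => ⟨c₀ v, x₀ v, fun s => if h : s < N then κ v (e.symm ⟨s, h⟩) else 0⟩,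
    fun s => if h : s < N then (C (cp (e.symm ⟨s, h⟩)) + ∑ i, C (xp (e.symm ⟨s, h⟩) i) * X i) *
        (C (cq (e.symm ⟨s, h⟩)) + ∑ i, C (xq (e.symm ⟨s, h⟩) i) * X i) else 0, ?_, ?_⟩
  · intro s hs
    have hs' : s < N := hs
    simp only [dif_pos hs']
    unfold LF.val
    simp only [Pi.zero_apply, map_zero, zero_mul, Finset.sum_const_zero, add_zero,
      MvPolynomial.algebraMap_eq]
  · intro v
    unfold LF.val
    simp only [MvPolynomial.algebraMap_eq]
    congr 1
    rw [← Equiv.sum_comp e.symm, Finset.sum_range]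
    refine Finset.sum_congr rfl fun s _ => ?_
    have hs : (s : ℕ) < N := s.2
    simp only [dif_pos hs, Fin.eta]

end

section

variable {K : Type} [Field K] {n : ℕ}

open Classical in
/-- the inputs `A` and `v` of the verification: `v` are the first `n` results -/
noncomputable def vin (K : Type) [Field K] (n : ℕ) (u : Fin n × Fin n ⊕ Fin n) : LF K (Fin n × Fin n) where
  c := 0
  x := fun w => if u = Sum.inl w then 1 else 0
  r := fun s => if ∃ h : s < n, u = Sum.inr ⟨s, h⟩ then 1 else 0

lemma vin_val (u : Fin n × Fin n ⊕ Fin n) (x : Fin n × Fin n → K) (g : ℕ → K) :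
    (vin K n u).val x n g = Sum.elim x (fun s : Fin n => g s) u := by
  classical
  unfold LF.val vin
  simp only [Algebra.algebraMap_self, RingHom.id_apply, zero_add, ite_mul, one_mul, zero_mul]
  rcases u with w | s
  · rw [Finset.sum_eq_single w]
    · simp
    · intro w' _ hw
      rw [if_neg (fun h => hw (Sum.inl.inj h).symm)]
    · intro h
      exact absurd (Finset.mem_univ _) h
  · rw [Finset.sum_range, Finset.sum_eq_single (s := Finset.univ (α := Fin n)) s]
    · simp
    · intro s' _ hs
      rw [if_neg]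
      rintro ⟨h, h'⟩
      exact hs (Sum.inr.inj h').symm
    · intro h
      exact absurd (Finset.mem_univ _) h

/-- **Singular matrices are accepted with `n ^ 2` multiplications.** -/
theorem sing_tree (K : Type) [Field K] (n : ℕ) : ∃ t : NTree K (Fin n × Fin n),
    ∀ A : Matrix (Fin n) (Fin n) K, t.Accepts (ent A) (n ^ 2) ↔ A.det = 0 := by
  classical
  rcases Nat.eq_zero_or_pos n with rfl | hn
  · refine ⟨.reject, fun A => ?_⟩
    rw [Matrix.det_isEmpty]
    exact ⟨fun h => h.elim, fun h => absurd h one_ne_zero⟩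
  obtain ⟨N, rfl⟩ : ∃ N, n = N + 1 := ⟨n - 1, by omega⟩
  set n := N + 1 with hnN
  -- the polynomials
  have hcomp : ∀ i₀ : Fin n, ∃ t : NTree K (Fin n × Fin n ⊕ Fin n),
      ∀ (A : Matrix (Fin n) (Fin n) K) (v : Fin n → K),
        t.Accepts (Sum.elim (ent A) v) (n ^ 2) ↔ v i₀ = 1 ∧ A.mulVec v = 0 := by
    intro i₀
    have h1 := nscomp_sum (K := K) (ι := Fin n × Fin n ⊕ Fin n) (R := Fin n × Fin n)
      (V := Option (Fin n)) (fun _ => 0) (fun _ => 0)
      (fun r => Pi.single (Sum.inl r) 1) (fun r => Pi.single (Sum.inr r.2) 1)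
      (fun v => v.elim (-1) fun _ => 0)
      (fun v => v.elim (Pi.single (Sum.inr i₀) 1) fun _ => 0)
      (fun v r => v.elim 0 fun i => if r.1 = i then 1 else 0)
    obtain ⟨t, ht⟩ := tree_of_comps h1
    refine ⟨t, fun A v => ?_⟩
    have hcard : Fintype.card (Fin n × Fin n) = n ^ 2 := by
      rw [Fintype.card_prod, Fintype.card_fin, pow_two]
    rw [← hcard, ht]
    have hs : ∀ (u : Fin n × Fin n ⊕ Fin n) (x : Fin n × Fin n ⊕ Fin n → K),
        eval x (∑ i, C ((Pi.single u (1 : K) : Fin n × Fin n ⊕ Fin n → K) i) * X i) = x u := by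
      intro u x
      rw [map_sum, Finset.sum_eq_single u]
      · simp
      · intro w _ hw
        simp [Pi.single_eq_of_ne hw]
      · intro h
        exact absurd (Finset.mem_univ _) h
    set x : Fin n × Fin n ⊕ Fin n → K := Sum.elim (ent A) v with hx
    have e0 : eval x (C ((none : Option (Fin n)).elim (-1) fun _ => (0 : K)) +
        ∑ i, C ((none : Option (Fin n)).elim (Pi.single (Sum.inr i₀) (1 : K))
          (fun _ => (0 : Fin n × Fin n ⊕ Fin n → K)) i) * X i +
        ∑ r : Fin n × Fin n, C ((none : Option (Fin n)).elim (0 : K)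
          fun i => if r.1 = i then 1 else 0) * ((C 0 + ∑ i, C ((Pi.single (Sum.inl r) (1 : K) :
            Fin n × Fin n ⊕ Fin n → K) i) * X i) *
          (C 0 + ∑ i, C ((Pi.single (Sum.inr r.2) (1 : K) : Fin n × Fin n ⊕ Fin n → K) i) *
            X i))) = v i₀ - 1 := by
      simp only [Option.elim_none, C_0, zero_mul, Finset.sum_const_zero, add_zero,
        map_add, eval_C, hs]
      rw [hx, Sum.elim_inr]
      ring
    have e1 : ∀ i : Fin n, eval x (C ((some i : Option (Fin n)).elim (-1) fun _ => (0 : K)) +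
        ∑ j, C ((some i : Option (Fin n)).elim (Pi.single (Sum.inr i₀) (1 : K))
          (fun _ => (0 : Fin n × Fin n ⊕ Fin n → K)) j) * X j +
        ∑ r : Fin n × Fin n, C ((some i : Option (Fin n)).elim (0 : K)
          fun i => if r.1 = i then 1 else 0) * ((C 0 + ∑ i, C ((Pi.single (Sum.inl r) (1 : K) :
            Fin n × Fin n ⊕ Fin n → K) i) * X i) *
          (C 0 + ∑ i, C ((Pi.single (Sum.inr r.2) (1 : K) : Fin n × Fin n ⊕ Fin n → K) i) *
            X i))) = (A.mulVec v) i := by
      intro i
      simp only [Option.elim_some, Pi.zero_apply, C_0, zero_mul, Finset.sum_const_zero,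
        zero_add, map_sum]
      rw [Matrix.mulVec, dotProduct, Fintype.sum_prod_type, Finset.sum_eq_single i]
      · refine Finset.sum_congr rfl fun j _ => ?_
        rw [map_mul, map_mul, hs, hs, if_pos rfl, C_1, map_one, one_mul]
        rfl
      · intro i' _ hi'
        refine Finset.sum_eq_zero fun j _ => ?_
        rw [if_neg hi', C_0, zero_mul, map_zero]
      · intro h
        exact absurd (Finset.mem_univ _) h
    constructor
    · intro h
      refine ⟨?_, ?_⟩
      · have h2 := (e0.symm.trans (h none))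
        linear_combination h2
      · funext i
        exact (e1 i).symm.trans (h (some i))
    · rintro ⟨h1, h2⟩ (_ | i)
      · exact e0.trans (by rw [h1, sub_self])
      · exact (e1 i).trans (congrFun h2 i)
  choose t ht using hcomp
  refine ⟨guessN (.choose N fun i => mapT (subLF n (vin K n)) (t i)) n, fun A => ?_⟩
  unfold NTree.Accepts
  rw [guessN_acc]
  have hch : ∀ g' : ℕ → K, (∀ s, n ≤ s → g' s = 0) →
      ((NTree.choose N fun i => mapT (subLF n (vin K n)) (t i)).Acc (ent A) (0 + n) g' (n ^ 2) ↔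
        ∃ i : Fin n, g' i = 1 ∧ A.mulVec (fun s : Fin n => g' s) = 0) := by
    intro g' hg'
    refine exists_congr fun i => ?_
    have h1 := mapT_acc n (vin K n) (ent A) (Sum.elim (ent A) fun s : Fin n => g' s) (t i) 0 g'
      (n ^ 2) (fun u => vin_val u (ent A) g')
    rw [add_zero] at h1
    rw [zero_add, h1]
    have h2 : (fun s => g' (n + s)) = 0 := funext fun s => hg' _ (Nat.le_add_right n s)
    rw [h2]
    exact ht i A _
  rw [← Matrix.exists_mulVec_eq_zero_iff]
  constructor
  · rintro ⟨g', h1, h2⟩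
    obtain ⟨i, h3, h4⟩ := (hch g' fun s hs => h1 s (Or.inr (by omega))).mp h2
    refine ⟨_, fun h => ?_, h4⟩
    have := congrFun h i
    rw [h3] at this
    exact one_ne_zero this
  · rintro ⟨v, hv, hAv⟩
    obtain ⟨i, hi⟩ := Function.ne_iff.mp hv
    rw [Pi.zero_apply] at hi
    let g' : ℕ → K := fun s => if h : s < n then (v i)⁻¹ * v ⟨s, h⟩ else 0
    have hg' : ∀ s, n ≤ s → g' s = 0 := fun s hs => by
      simp only [g', dif_neg (not_lt.mpr hs)]
    have hgv : (fun s : Fin n => g' s) = (v i)⁻¹ • v := by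
      funext s
      simp only [g', dif_pos s.2, Fin.eta, Pi.smul_apply, smul_eq_mul]
    refine ⟨g', fun s hs => hg' s (by omega), (hch g' hg').mpr ⟨i, ?_, ?_⟩⟩
    · have := congrFun hgv i
      rw [this, Pi.smul_apply, smul_eq_mul, inv_mul_cancel₀ hi]
    · rw [hgv, Matrix.mulVec_smul, hAv, smul_zero]

end

end Pool.Agent.R562.CT
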