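import Pool.Agent.R562.CT.Lin
import Pool.Agent.R562.SC.Poly
import Pool.Agent.R562.ND.Main

/-!
# Certifying the determinant and the coefficients of the characteristic polynomial
-/

set_option autoImplicit false
set_option linter.unusedSectionVars false

namespace Pool.Agent.R562.CT

open MvPolynomial Filter Pool.Agent.W966.Vf Pool.Agent.W966.Vg Pool.Agent.R562.ND
open Pool.Agent.H515R2.MMR (omega)

variable {K : Type} [Field K]

lemma tr2 {n : ℕ} (a b c d : Fin n) :
    (Matrix.single a b (1 : K) * Matrix.single c d 1).trace = if b = c ∧ d = a then 1 else 0 := by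
  by_cases h1 : b = c
  · subst h1
    rw [Matrix.single_mul_single_same]
    by_cases h2 : d = a
    · subst h2
      simp
    · rw [if_neg (fun h => h2 h.2), Matrix.trace_single_eq_of_ne _ _ _ (fun h => h2 h.symm)]
  · rw [Matrix.single_mul_single_of_ne (h := h1), if_neg (fun h => h1 h.1), Matrix.trace_zero]

/-- Functions whose third derivative is the trace of the product. -/
theorem of_block [IsAlgClosed K] [CharZero K] {n L : ℕ} {t : NTree K (Fin n × Fin n ⊕ Unit)}
    {f : MvPolynomial (Fin n × Fin n) K} (H : Certifies t L fun _ => f)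
    (b : Fin n × Fin n → K) (γ : K) (hγ : γ ≠ 0)
    (hf : ∀ x y z : Matrix (Fin n) (Fin n) K, x.trace = 0 → y.trace = 0 → (x * y).trace = 0 →
      D3 f b (ent x) (ent y) (ent z) = γ * ((x * y * z).trace + (y * x * z).trace)) :
    ((n / 3 : ℕ) : ℝ) ^ omega ≤ 18 * L := by
  obtain ⟨m, hm⟩ : ∃ m, n / 3 = m := ⟨_, rfl⟩
  rw [hm]
  have hmn : 3 * m ≤ n := by omega
  rcases Nat.eq_zero_or_pos m with rfl | hm0
  · have := Pool.Agent.Y538.Par.two_le_omega
    rw [Nat.cast_zero, Real.zero_rpow (by linarith)]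
    positivity
  refine scalar H b (fun i j => ent (Matrix.single ⟨i, by omega⟩ ⟨m + j, by omega⟩ 1))
    (fun j k => ent (Matrix.single ⟨m + j, by omega⟩ ⟨2 * m + k, by omega⟩ 1))
    (fun k l => ent (Matrix.single ⟨2 * m + k, by omega⟩ ⟨l, by omega⟩ 1)) γ hγ ?_ hm0
  intro i j j' k k' l
  have hi := i.2
  have hj := j.2
  have hj' := j'.2
  have hk := k.2
  have hk' := k'.2
  have hl := l.2
  rw [hf]
  · rw [tr3, tr3]
    simp only [Fin.mk.injEq]
    rw [if_neg (c := 2 * m + (k : ℕ) = i ∧ m + (j : ℕ) = 2 * m + k' ∧ m + (j' : ℕ) = l)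
      (by omega), add_zero]
    by_cases hc : j = j' ∧ k = k' ∧ l = i
    · obtain ⟨rfl, rfl, rfl⟩ := hc
      rw [if_pos ⟨rfl, rfl, rfl⟩, if_pos ⟨rfl, rfl, rfl⟩, mul_one]
    · have hc' : ¬ ((j : ℕ) = j' ∧ (k : ℕ) = k' ∧ (l : ℕ) = i) := by
        rintro ⟨h1, h2, h3⟩
        exact hc ⟨Fin.ext h1, Fin.ext h2, Fin.ext h3⟩
      rw [if_neg hc, if_neg (by omega), mul_zero]
  · refine Matrix.trace_single_eq_of_ne _ _ _ (fun h => ?_)
    have := congrArg Fin.val h
    simp only at this
    omega
  · refine Matrix.trace_single_eq_of_ne _ _ _ (fun h => ?_)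
    have := congrArg Fin.val h
    simp only at this
    omega
  · rw [tr2, if_neg]
    rintro ⟨-, h⟩
    have := congrArg Fin.val h
    simp only at this
    omega

/-! ### The characteristic polynomial -/

/-- The coefficient of `X ^ k` in the characteristic polynomial of the `n × n` matrix `A`, as a
polynomial in the entries of `A`. -/
noncomputable def charP (K : Type) [Field K] (n k : ℕ) : MvPolynomial (Fin n × Fin n) K :=
  (Matrix.mvPolynomialX (Fin n) (Fin n) K).charpoly.coeff k

lemma eval_charP (n k : ℕ) (A : Matrix (Fin n) (Fin n) K) :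
    eval (ent A) (charP K n k) = A.charpoly.coeff k := by
  unfold charP
  have h1 : (eval (ent A)).mapMatrix (Matrix.mvPolynomialX (Fin n) (Fin n) K) = A := by
    ext i j
    simp [Matrix.mvPolynomialX, ent]
  have h2 := Matrix.charpoly_map (Matrix.mvPolynomialX (Fin n) (Fin n) K) (eval (ent A))
  rw [show (Matrix.mvPolynomialX (Fin n) (Fin n) K).map (eval (ent A)) = A from h1] at h2
  rw [h2, Polynomial.coeff_map]

/-- `X v ↦ r δ v - X v` -/
noncomputable def flp (n : ℕ) (r : K) :
    MvPolynomial (Fin n × Fin n) K →ₐ[K] MvPolynomial (Fin n × Fin n) K :=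
  aeval (fun v => C (ent (r • (1 : Matrix (Fin n) (Fin n) K)) v) - X v)

lemma dd_flp (n : ℕ) (r : K) (x : Fin n × Fin n → K) (p : MvPolynomial (Fin n × Fin n) K) :
    dd x (flp n r p) = - flp n r (dd x p) := by
  unfold flp
  induction p using MvPolynomial.induction_on with
  | C c =>
    have h1 : (algebraMap K (MvPolynomial (Fin n × Fin n) K)) c = C c := rfl
    rw [aeval_C, h1, dd_C, map_zero, neg_zero]
  | add p q hp hq => rw [map_add, map_add, map_add, map_add, hp, hq, neg_add]
  | mul_X p i hp =>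
    have h1 : ∀ c : K, (algebraMap K (MvPolynomial (Fin n × Fin n) K)) c = C c := fun _ => rfl
    rw [map_mul, dd_mul, dd_mul, map_add, map_mul, map_mul, aeval_X, map_sub, dd_X, dd_C, hp,
      aeval_C, h1]
    ring

lemma eval_flp (n : ℕ) (r s : K) (p : MvPolynomial (Fin n × Fin n) K) :
    eval (ent (s • (1 : Matrix (Fin n) (Fin n) K))) (flp n r p) =
      eval (ent ((r - s) • (1 : Matrix (Fin n) (Fin n) K))) p := by
  unfold flp
  induction p using MvPolynomial.induction_on with
  | C c => simp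
  | add p q hp hq => rw [map_add, map_add, map_add, hp, hq]
  | mul_X p i hp =>
    rw [map_mul, map_mul, map_mul, hp, aeval_X, map_sub, eval_C, eval_X, eval_X]
    simp [ent, sub_mul]

lemma flp_det (n : ℕ) (r : K) : flp n r (SC.detP K n) =
    (Matrix.mvPolynomialX (Fin n) (Fin n) K).charpoly.eval (C r) := by
  unfold SC.detP
  rw [Matrix.eval_charpoly, AlgHom.map_det]
  congr 1
  ext1 i j
  rw [AlgHom.mapMatrix_apply, Matrix.map_apply, Matrix.sub_apply, Matrix.scalar_apply]
  simp only [SC.gen, Matrix.mvPolynomialX_apply, flp, aeval_X, ent, Matrix.smul_apply,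
    smul_eq_mul, Matrix.one_apply, Matrix.diagonal_apply]
  split_ifs <;> simp

/-- The third derivatives of the coefficients of the characteristic polynomial. -/
theorem D3_charP [CharZero K] {n k : ℕ} (hk : k + 3 ≤ n) (s : K)
    (x y z : Matrix (Fin n) (Fin n) K)
    (hx : x.trace = 0) (hy : y.trace = 0) (hxy : (x * y).trace = 0) :
    D3 (charP K n k) (ent (s • (1 : Matrix (Fin n) (Fin n) K))) (ent x) (ent y) (ent z) =
      -((n - 3).choose k * (-s) ^ (n - 3 - k)) * ((x * y * z).trace + (y * x * z).trace) := by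
  set b := ent (s • (1 : Matrix (Fin n) (Fin n) K)) with hb
  set T := (x * y * z).trace + (y * x * z).trace with hT
  set Q := (Matrix.mvPolynomialX (Fin n) (Fin n) K).charpoly with hQ
  let Pl : Polynomial K := ∑ j ∈ Finset.range (Q.natDegree + 1),
    Polynomial.C (D3L b (ent x) (ent y) (ent z) (Q.coeff j)) * Polynomial.X ^ j
  have h1 : ∀ r : K, Pl.eval r = D3 (flp n r (SC.detP K n)) b (ent x) (ent y) (ent z) := by
    intro r
    rw [flp_det, ← D3L_apply, Polynomial.eval_eq_sum_range (p := Q), map_sum,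
      Polynomial.eval_finsetSum]
    refine Finset.sum_congr rfl fun j _ => ?_
    rw [Polynomial.eval_mul, Polynomial.eval_C, Polynomial.eval_pow, Polynomial.eval_X, ← C_pow,
      mul_comm (Q.coeff j), ← MvPolynomial.smul_eq_C_mul, map_smul, smul_eq_mul, mul_comm]
  have h2 : ∀ r : K, r ≠ s → Pl.eval r = -((r - s) ^ (n - 3) * T) := by
    intro r hr
    have hρ : r - s ≠ 0 := sub_ne_zero.mpr hr
    rw [h1]
    unfold D3
    rw [dd_flp, map_neg (dd (ent y)), dd_flp, neg_neg, dd_flp, map_neg, eval_flp, neg_inj]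
    have hinv : ∀ w : Matrix (Fin n) (Fin n) K, ent w =
        SC.entM (((r - s) • (1 : Matrix (Fin n) (Fin n) K)) * ((r - s)⁻¹ • w)) := by
      intro w
      rw [smul_mul_smul_comm, mul_inv_cancel₀ hρ, one_smul, one_mul]
      rfl
    have h3 := SC.D3_detP ((r - s) • (1 : Matrix (Fin n) (Fin n) K)) ((r - s)⁻¹ • x)
      ((r - s)⁻¹ • y) ((r - s)⁻¹ • z)
      (by
        rw [Matrix.det_smul, Matrix.det_one, mul_one]
        exact (isUnit_iff_ne_zero.mpr (pow_ne_zero _ hρ)))
      (by rw [Matrix.trace_smul, hx, smul_zero]) (by rw [Matrix.trace_smul, hy, smul_zero])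
      (by rw [smul_mul_smul_comm, Matrix.trace_smul, hxy, smul_zero])
    rw [← hinv, ← hinv, ← hinv] at h3
    refine h3.trans ?_
    rw [Matrix.det_smul, Matrix.det_one, mul_one, Fintype.card_fin]
    simp only [smul_mul_smul_comm, Matrix.trace_smul, smul_eq_mul]
    obtain ⟨N, rfl⟩ := Nat.exists_eq_add_of_le' (show 3 ≤ n by omega)
    rw [Nat.add_sub_cancel, hT]
    field_simp
    ring
  have h3 : Pl = -((Polynomial.X - Polynomial.C s) ^ (n - 3) * Polynomial.C T) := by
    have : Infinite K := CharZero.infinite K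
    refine Polynomial.eq_of_infinite_eval_eq _ _ ?_
    refine Set.Infinite.mono (s := {s}ᶜ) ?_ (Set.Finite.infinite_compl (Set.finite_singleton s))
    intro r hr
    have hr' : r ≠ s := by simpa using hr
    show Polynomial.eval r Pl = _
    rw [h2 r hr']
    simp
  have hdeg : Q.natDegree = n := by
    rw [hQ, Matrix.charpoly_natDegree_eq_dim, Fintype.card_fin]
  have h4 := congrArg (fun q => Polynomial.coeff q k) h3
  have h5 : Polynomial.coeff Pl k = D3L b (ent x) (ent y) (ent z) (Q.coeff k) := by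
    rw [Polynomial.finsetSum_coeff, Finset.sum_eq_single k]
    · rw [Polynomial.coeff_C_mul_X_pow, if_pos rfl]
    · intro j _ hj
      rw [Polynomial.coeff_C_mul_X_pow, if_neg hj.symm]
    · intro h
      exact absurd (Finset.mem_range.mpr (by omega)) h
  rw [h5, Polynomial.coeff_neg, Polynomial.coeff_mul_C, sub_eq_add_neg, ← map_neg,
    Polynomial.coeff_X_add_C_pow] at h4
  show D3L b (ent x) (ent y) (ent z) (Q.coeff k) = _
  rw [h4]
  ring

/-- **Certifying a coefficient of the characteristic polynomial.** -/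
theorem charP_lower [IsAlgClosed K] [CharZero K] {n k L : ℕ} (hk : k + 3 ≤ n)
    {t : NTree K (Fin n × Fin n ⊕ Unit)} (H : Certifies t L fun _ => charP K n k) :
    ((n / 3 : ℕ) : ℝ) ^ omega ≤ 18 * L := by
  refine of_block H (ent ((-1 : K) • (1 : Matrix (Fin n) (Fin n) K)))
    (-((n - 3).choose k * (- (-1)) ^ (n - 3 - k))) ?_ ?_
  · rw [neg_neg, one_pow, mul_one, neg_ne_zero, Nat.cast_ne_zero]
    exact (Nat.choose_pos (by omega)).ne'
  · intro x y z hx hy hxy
    exact D3_charP hk (-1) x y z hx hy hxy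

/-- **Certifying the determinant.** -/
theorem det_lower [IsAlgClosed K] [CharZero K] {n L : ℕ}
    {t : NTree K (Fin n × Fin n ⊕ Unit)} (H : Certifies t L fun _ => SC.detP K n) :
    ((n / 3 : ℕ) : ℝ) ^ omega ≤ 18 * L := by
  refine of_block H (ent (1 : Matrix (Fin n) (Fin n) K)) 1 one_ne_zero ?_
  intro x y z hx hy hxy
  have := SC.D3_detP (1 : Matrix (Fin n) (Fin n) K) x y z (by simp) hx hy hxy
  simp only [one_mul, Matrix.det_one] at this
  rw [one_mul]
  exact this

end Pool.Agent.R562.CT
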