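import Pool.Agent.R562.CT.Sing

/-!
# The exponents
-/

set_option autoImplicit false
set_option linter.unusedSectionVars false

namespace Pool.Agent.R562.CT

open MvPolynomial Filter Pool.Agent.W966.Vf Pool.Agent.W966.Vg Pool.Agent.R562.ND
open Pool.Agent.H515R2.MMR (omega)

lemma third_ge {n : ℕ} (hn : 3 ≤ n) : (1 / 6 : ℝ) ^ omega * (n : ℝ) ^ omega ≤
    ((n / 3 : ℕ) : ℝ) ^ omega := by
  have hω := Pool.Agent.Y538.Par.two_le_omega
  have h2 : (1 / 6 : ℝ) * n ≤ ((n / 3 : ℕ) : ℝ) := by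
    have h3 : n ≤ 6 * (n / 3) := by omega
    have h4 : (n : ℝ) ≤ 6 * ((n / 3 : ℕ) : ℝ) := by exact_mod_cast h3
    linarith
  rw [← Real.mul_rpow (by norm_num) (by positivity)]
  exact Real.rpow_le_rpow (by positivity) h2 (by linarith)

theorem exponent_charP {K : Type} [Field K] [IsAlgClosed K] [CharZero K] (τ D : ℝ)
    (h : ∃ᶠ n : ℕ in atTop, ∃ (k : ℕ) (t : NTree K (Fin n × Fin n ⊕ Unit)) (L : ℕ), k + 3 ≤ n ∧
      Certifies t L (fun _ => charP K n k) ∧ (L : ℝ) ≤ D * (n : ℝ) ^ τ) : omega ≤ τ := by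
  refine NV.le_of_frequently (c := (1 / 6 : ℝ) ^ omega) (D := 18 * D)
    (Real.rpow_pos_of_pos (by norm_num) _) (h.mono ?_)
  rintro n ⟨k, t, L, hk, H, hL⟩
  have h1 := charP_lower hk H
  have h2 := third_ge (n := n) (by omega)
  calc (1 / 6 : ℝ) ^ omega * (n : ℝ) ^ omega ≤ 18 * L := h2.trans h1
    _ ≤ 18 * (D * (n : ℝ) ^ τ) := by linarith
    _ = 18 * D * (n : ℝ) ^ τ := by ring

theorem exponent_det {K : Type} [Field K] [IsAlgClosed K] [CharZero K] (τ D : ℝ)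
    (h : ∃ᶠ n : ℕ in atTop, ∃ (c : K) (t : NTree K (Fin n × Fin n)) (L : ℕ), c ≠ 0 ∧
      (∀ A, t.Accepts (ent A) L ↔ A.det = c) ∧ (L : ℝ) ≤ D * (n : ℝ) ^ τ) : omega ≤ τ := by
  have hω := Pool.Agent.Y538.Par.two_le_omega
  have hτ : omega ≤ max τ 1 := by
    refine NV.le_of_frequently (c := (1 / 6 : ℝ) ^ omega) (D := 18 * max D 0 + 18)
      (Real.rpow_pos_of_pos (by norm_num) _) ?_
    refine (h.and_eventually (eventually_ge_atTop 3)).mono ?_
    rintro n ⟨⟨c, t, L, hc, H, hL⟩, hn⟩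
    have h1 := det_eq_lower hc H
    have h2 := third_ge hn
    have hn1 : (1 : ℝ) ≤ n := by exact_mod_cast (by omega : 1 ≤ n)
    have h4 : (n : ℝ) ^ τ ≤ (n : ℝ) ^ (max τ 1) :=
      Real.rpow_le_rpow_of_exponent_le hn1 (le_max_left _ _)
    have h5 : (n : ℝ) ≤ (n : ℝ) ^ (max τ 1) := by
      calc (n : ℝ) = (n : ℝ) ^ (1 : ℝ) := (Real.rpow_one _).symm
        _ ≤ (n : ℝ) ^ (max τ 1) := Real.rpow_le_rpow_of_exponent_le hn1 (le_max_right _ _)
    have h6 : (L : ℝ) ≤ max D 0 * (n : ℝ) ^ (max τ 1) := by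
      refine hL.trans ?_
      refine (mul_le_mul_of_nonneg_right (le_max_left D 0) (by positivity)).trans ?_
      exact mul_le_mul_of_nonneg_left h4 (le_max_right _ _)
    calc (1 / 6 : ℝ) ^ omega * (n : ℝ) ^ omega ≤ 18 * (L + n) := h2.trans h1
      _ ≤ 18 * (max D 0 * (n : ℝ) ^ (max τ 1) + (n : ℝ) ^ (max τ 1)) := by linarith
      _ = (18 * max D 0 + 18) * (n : ℝ) ^ (max τ 1) := by ring
  rcases le_total τ 1 with h0 | h0
  · rw [max_eq_right h0] at hτ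
    linarith
  · rwa [max_eq_left h0] at hτ

end Pool.Agent.R562.CT
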