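import Mathlib
import Pool.Agent.R562.ND.Omega

/-!
# From the Zariski closure of the tensors of small rank to the exponent
-/

set_option autoImplicit false

namespace Pool.Agent.R562.CT

open MvPolynomial Filter
open Pool.Agent.H515R2.MMR (omega)

section

variable {K Q : Type} [Field K] [Fintype Q]

lemma card_sym_le (Q : Type) [Fintype Q] [DecidableEq Q] (N : ℕ) :
    Fintype.card (Sym Q N) ≤ (N + 1) ^ Fintype.card Q := by
  have h1 : Fintype.card (Q → Fin (N + 1)) = (N + 1) ^ Fintype.card Q := by simp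
  rw [← h1]
  refine Fintype.card_le_of_injective
    (fun μ q => ⟨(μ : Multiset Q).count q, Nat.lt_succ_of_le ?_⟩) ?_
  · exact (Multiset.count_le_card q _).trans μ.2.le
  · intro μ ν h
    apply Sym.coe_injective
    ext q
    have := congrFun h q
    simpa using this

/-- **The powers of a tensor in the closure.** -/
theorem veronese (𝓡 : Set (Q → K)) (τ : Q → K)
    (hcl : ∀ h : MvPolynomial Q K, (∀ S ∈ 𝓡, eval S h = 0) → eval τ h = 0) (N : ℕ) :
    ∃ (β : Type) (_ : Fintype β) (c : β → K) (S : β → Q → K),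
      Fintype.card β ≤ (N + 1) ^ Fintype.card Q ∧ (∀ i, S i ∈ 𝓡) ∧
      ∀ q : Fin N → Q, ∏ t, τ (q t) = ∑ i, c i * ∏ t, S i (q t) := by
  classical
  let Ψ : (Q → K) → Sym Q N → K := fun S μ => ((μ : Multiset Q).map S).prod
  have hmem : Ψ τ ∈ Submodule.span K (Ψ '' 𝓡) := by
    by_contra hcon
    obtain ⟨ℓ, hℓ, hle⟩ := Submodule.exists_le_ker_of_notMem hcon
    have hsum : ∀ v : Sym Q N → K, ℓ v = ∑ μ, v μ * ℓ (Pi.single μ 1) := by
      intro v
      rw [LinearMap.pi_apply_eq_sum_univ ℓ v]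
      refine Finset.sum_congr rfl fun μ _ => ?_
      rw [smul_eq_mul]
      congr 2
      funext ν
      rw [Pi.single_apply]
      simp only [eq_comm]
    let h : MvPolynomial Q K := ∑ μ : Sym Q N,
      ((μ : Multiset Q).map (X : Q → MvPolynomial Q K)).prod * C (ℓ (Pi.single μ 1))
    have hev : ∀ S : Q → K, eval S h = ℓ (Ψ S) := by
      intro S
      rw [hsum, map_sum]
      refine Finset.sum_congr rfl fun μ _ => ?_
      rw [map_mul, eval_C, map_multiset_prod, Multiset.map_map]
      congr 2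
      refine Multiset.map_congr rfl fun q _ => ?_
      rw [Function.comp_apply, eval_X]
    apply hℓ
    rw [← hev]
    refine hcl h fun S hS => ?_
    rw [hev]
    exact LinearMap.mem_ker.mp (hle (Submodule.subset_span ⟨S, hS, rfl⟩))
  obtain ⟨b, hb, hspan, hli⟩ := exists_linearIndependent K (Ψ '' 𝓡)
  rw [← hspan] at hmem
  have hfin : Finite b := hli.setFinite
  let _ : Fintype b := Fintype.ofFinite b
  have hcard : Fintype.card b ≤ Fintype.card (Sym Q N) := by
    have := hli.fintype_card_le_finrank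
    rwa [Module.finrank_fintype_fun_eq_card] at this
  have hS : ∀ i : b, ∃ S ∈ 𝓡, Ψ S = i := fun i => hb i.2
  choose S hS1 hS2 using hS
  have h1 : Ψ τ ∈ Submodule.span K (Set.range ((↑) : b → Sym Q N → K)) := by
    rwa [Subtype.range_coe]
  obtain ⟨c, hc⟩ := (Submodule.mem_span_range_iff_exists_fun K).mp h1
  refine ⟨b, inferInstance, c, S, hcard.trans (card_sym_le Q N), hS1, fun q => ?_⟩
  let μ : Sym Q N := ⟨Multiset.ofList (List.ofFn q), by simp⟩
  have hμ : ∀ S : Q → K, Ψ S μ = ∏ t, S (q t) := by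
    intro S
    show ((Multiset.ofList (List.ofFn q)).map S).prod = _
    rw [Multiset.map_coe, Multiset.prod_coe, List.map_ofFn, List.prod_ofFn]
    rfl
  rw [← hμ, ← hc, Finset.sum_apply]
  refine Finset.sum_congr rfl fun i _ => ?_
  rw [Pi.smul_apply, smul_eq_mul, ← hS2 i, hμ]

end

lemma le_of_pow_bound {a r : ℝ} (D : ℕ) (hr : 0 ≤ r) (ha : 0 < a)
    (h : ∀ N : ℕ, a ^ N ≤ ((N : ℝ) + 1) ^ D * r ^ N) : a ≤ r := by
  by_contra hlt
  push Not at hlt
  rcases hr.eq_or_lt with h0 | h0
  · have := h 1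
    rw [← h0] at this
    simp at this
    linarith
  · have h1 : 1 < a / r := (one_lt_div h0).mpr hlt
    have h2 := tendsto_pow_const_div_const_pow_of_one_lt D h1
    have h3 : ∀ᶠ n : ℕ in atTop, (n : ℝ) ^ D / (a / r) ^ n < (a / r)⁻¹ :=
      h2.eventually (gt_mem_nhds (by positivity))
    obtain ⟨n, hn1, hn2⟩ := (h3.and (eventually_ge_atTop 1)).exists
    obtain ⟨N, rfl⟩ := Nat.exists_eq_add_of_le' hn2
    have h4 := h N
    have h5 : (a / r) ^ N ≤ ((N : ℝ) + 1) ^ D := by
      rw [div_pow, div_le_iff₀ (by positivity)]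
      exact h4
    rw [div_lt_iff₀ (by positivity), pow_succ, mul_comm, mul_assoc,
      mul_inv_cancel₀ (by positivity), mul_one] at hn1
    push_cast at hn1
    linarith

/-- The tensors `(i, j, j', k, k', l) ↦ ∑ a i j * b j' k * c k' l` with `R` summands. -/
def rankLE (K : Type) [Field K] (m R : ℕ) :
    Set ((Fin m × Fin m) × (Fin m × Fin m) × (Fin m × Fin m) → K) :=
  {S | ∃ a b c : Fin R → Fin m → Fin m → K, ∀ i j j' k k' l,
    S ((i, j), (j', k), (k', l)) = ∑ r, a r i j * b r j' k * c r k' l}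

/-- **From the closure to the exponent.** -/
theorem clos_omega {K : Type} [Field K] [CharZero K] {m R : ℕ} (hm : 0 < m) (γ : K) (hγ : γ ≠ 0)
    (τ : (Fin m × Fin m) × (Fin m × Fin m) × (Fin m × Fin m) → K)
    (hτ : ∀ i j j' k k' l, τ ((i, j), (j', k), (k', l)) =
      if j = j' ∧ k = k' ∧ l = i then γ else 0)
    (hcl : ∀ h : MvPolynomial ((Fin m × Fin m) × (Fin m × Fin m) × (Fin m × Fin m)) K,
      (∀ S ∈ rankLE K m R, eval S h = 0) → eval τ h = 0) :
    (m : ℝ) ^ omega ≤ R := by
  classical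
  set D := Fintype.card ((Fin m × Fin m) × (Fin m × Fin m) × (Fin m × Fin m)) with hD
  refine le_of_pow_bound D (Nat.cast_nonneg R) (Real.rpow_pos_of_pos (by exact_mod_cast hm) _)
    fun N => ?_
  obtain ⟨β, _, c, S, hcard, hS, hprod⟩ := veronese (rankLE K m R) τ hcl N
  choose a b d habd using hS
  let e := (finFunctionFinEquiv (m := m) (n := N)).symm
  have key := Pool.Agent.R562.ND.ad (Ω := K) (T := β × (Fin N → Fin R)) (m ^ N) 0
    (fun t i j => PowerSeries.C ((γ⁻¹) ^ N * c t.1 * ∏ s, a t.1 (t.2 s) (e i s) (e j s)))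
    (fun t i j => PowerSeries.C (∏ s, b t.1 (t.2 s) (e i s) (e j s)))
    (fun t i j => PowerSeries.C (∏ s, d t.1 (t.2 s) (e i s) (e j s))) (pow_pos hm N) (by
      intro i j j' k k' l d0 hd0
      obtain rfl : d0 = 0 := Nat.le_zero.mp hd0
      have h1 := hprod fun s => ((e i s, e j s), (e j' s, e k s), (e k' s, e l s))
      have h2 : ∀ x : β, ∏ s, S x ((e i s, e j s), (e j' s, e k s), (e k' s, e l s)) =
          ∑ ρ : Fin N → Fin R, (∏ s, a x (ρ s) (e i s) (e j s)) *
            (∏ s, b x (ρ s) (e j' s) (e k s)) * ∏ s, d x (ρ s) (e k' s) (e l s) := by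
        intro x
        simp only [habd]
        rw [Finset.prod_univ_sum, Fintype.piFinset_univ]
        exact Finset.sum_congr rfl fun ρ _ => by
          rw [Finset.prod_mul_distrib, Finset.prod_mul_distrib]
      simp only [hτ, h2] at h1
      rw [map_sum]
      simp only [← map_mul, PowerSeries.coeff_zero_C]
      rw [Fintype.sum_prod_type]
      have h3 : ∑ x : β, ∑ ρ : Fin N → Fin R,
          γ⁻¹ ^ N * c x * (∏ s, a x (ρ s) (e i s) (e j s)) * (∏ s, b x (ρ s) (e j' s) (e k s)) *
            ∏ s, d x (ρ s) (e k' s) (e l s) = γ⁻¹ ^ N *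
          ∏ s : Fin N, if e j s = e j' s ∧ e k s = e k' s ∧ e l s = e i s then γ else 0 := by
        rw [h1, Finset.mul_sum]
        refine Finset.sum_congr rfl fun x _ => ?_
        rw [Finset.mul_sum, Finset.mul_sum]
        exact Finset.sum_congr rfl fun ρ _ => by ring
      refine h3.trans ?_
      by_cases hc : j = j' ∧ k = k' ∧ l = i
      · rw [if_pos ⟨by trivial, hc⟩]
        obtain ⟨rfl, rfl, rfl⟩ := hc
        simp only [and_self, if_true, Finset.prod_const, Finset.card_univ, Fintype.card_fin]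
        rw [← mul_pow, inv_mul_cancel₀ hγ, one_pow]
      · rw [if_neg (fun h => hc h.2)]
        have h4 : ∃ s : Fin N, ¬ (e j s = e j' s ∧ e k s = e k' s ∧ e l s = e i s) := by
          by_contra hall
          push Not at hall
          exact hc ⟨e.injective (funext fun s => (hall s).1),
            e.injective (funext fun s => (hall s).2.1), e.injective (funext fun s => (hall s).2.2)⟩
        obtain ⟨s, hs⟩ := h4
        rw [Finset.prod_eq_zero (Finset.mem_univ s) (if_neg hs), mul_zero])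
  rw [Fintype.card_prod, Fintype.card_fun, Fintype.card_fin, Fintype.card_fin] at key
  have h5 : ((m ^ N : ℕ) : ℝ) ^ omega = ((m : ℝ) ^ omega) ^ N := by
    push_cast
    rw [← Real.rpow_natCast, ← Real.rpow_mul (Nat.cast_nonneg m), mul_comm,
      Real.rpow_mul (Nat.cast_nonneg m), Real.rpow_natCast]
  rw [h5] at key
  refine key.trans ?_
  push_cast
  gcongr
  exact_mod_cast hcard

end Pool.Agent.R562.CT
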