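import Pool.Agent.R562.CT.Main
import Pool.Agent.R562.CT.Span

/-!
# From verification to the exponent
-/

set_option autoImplicit false
set_option linter.unusedSectionVars false

namespace Pool.Agent.R562.CT

open MvPolynomial Filter Pool.Agent.W966.Vf Pool.Agent.W966.Vg Pool.Agent.R562.ND
open Pool.Agent.H515R2.MMR (omega)

section functional

variable {K ι : Type} [Field K] [Fintype ι]

lemma exists_deg (ι : Type) [Fintype ι] (k : ℕ) :
    ∃ s : Finset (ι →₀ ℕ), ∀ μ, μ ∈ s ↔ μ.degree = k := by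
  classical
  refine ⟨Finset.finsuppAntidiag Finset.univ k, fun μ => ?_⟩
  rw [Finset.mem_finsuppAntidiag, Finsupp.degree_eq_sum]
  exact ⟨fun h => h.1, fun h => ⟨h, Finset.subset_univ _⟩⟩

lemma lin_coeff (Λ : MvPolynomial ι K →ₗ[K] K) (k : ℕ)
    (hΛ : ∀ μ : ι →₀ ℕ, μ.degree ≠ k → Λ (monomial μ 1) = 0) (s : Finset (ι →₀ ℕ))
    (hs : ∀ μ, μ ∈ s ↔ μ.degree = k) (g : MvPolynomial ι K) :
    Λ g = ∑ μ ∈ s, coeff μ g * Λ (monomial μ 1) := by
  classical
  induction g using MvPolynomial.induction_on' with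
  | monomial ν c =>
    have h1 : Λ (monomial ν c) = c * Λ (monomial ν 1) := by
      rw [← smul_eq_mul, ← map_smul, smul_monomial, smul_eq_mul, mul_one]
    rw [h1]
    simp only [coeff_monomial, ite_mul, zero_mul]
    rw [Finset.sum_ite_eq]
    split_ifs with h
    · rfl
    · rw [hΛ ν (fun h' => h ((hs ν).mpr h')), mul_zero]
  | add p q hp hq =>
    rw [map_add, hp, hq, ← Finset.sum_add_distrib]
    exact Finset.sum_congr rfl fun μ _ => by rw [coeff_add, add_mul]

/-- Transfer of the closure to tensors. -/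
theorem clos_of_inClosure {V Q : Type} [Fintype V] {C₀ : Set (V → MvPolynomial ι K)}
    {f : V → MvPolynomial ι K} (hf : InClosure C₀ f) (k : ℕ)
    (Λ : Q → V → (MvPolynomial ι K →ₗ[K] K))
    (hΛ : ∀ q v (μ : ι →₀ ℕ), μ.degree ≠ k → Λ q v (monomial μ 1) = 0) (𝓡 : Set (Q → K))
    (h𝓡 : ∀ g ∈ C₀, (fun q => ∑ v, Λ q v (g v)) ∈ 𝓡) (h : MvPolynomial Q K)
    (hh : ∀ S ∈ 𝓡, eval S h = 0) : eval (fun q => ∑ v, Λ q v (f v)) h = 0 := by
  classical
  obtain ⟨s, hs⟩ := exists_deg ι k
  let Lq : Q → MvPolynomial (V × (ι →₀ ℕ)) K := fun q =>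
    ∑ v, ∑ μ ∈ s, X (v, μ) * C (Λ q v (monomial μ 1))
  have hev : ∀ g : V → MvPolynomial ι K, eval (fun p => coeff p.2 (g p.1)) (aeval Lq h) =
      eval (fun q => ∑ v, Λ q v (g v)) h := by
    intro g
    have h1 : eval (fun p : V × (ι →₀ ℕ) => coeff p.2 (g p.1)) (aeval Lq h) =
        aeval (fun p : V × (ι →₀ ℕ) => coeff p.2 (g p.1)) (aeval Lq h) := rfl
    rw [h1, comp_aeval_apply]
    have h2 : (fun q => aeval (fun p : V × (ι →₀ ℕ) => coeff p.2 (g p.1)) (Lq q)) =
        fun q => ∑ v, Λ q v (g v) := by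
      funext q
      simp only [Lq, map_sum, map_mul, aeval_X, aeval_C, Algebra.algebraMap_self, RingHom.id_apply]
      exact Finset.sum_congr rfl fun v _ => (lin_coeff (Λ q v) k (hΛ q v) s hs (g v)).symm
    rw [h2]
    rfl
  rw [← hev]
  refine hf _ fun g hg => ?_
  rw [hev]
  exact hh _ (h𝓡 g hg)

lemma lin_cut (Λ : MvPolynomial ι K →ₗ[K] K) (k D : ℕ)
    (hΛ : ∀ μ : ι →₀ ℕ, μ.degree ≠ k → Λ (monomial μ 1) = 0) (h1 : 1 ≤ k) (h2 : k ≤ D)
    (p : MvPolynomial ι K) : Λ (cut D p) = Λ p := by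
  classical
  obtain ⟨s, hs⟩ := exists_deg ι k
  rw [lin_coeff Λ k hΛ s hs, lin_coeff Λ k hΛ s hs]
  refine Finset.sum_congr rfl fun μ hμ => ?_
  congr 1
  unfold cut
  rw [coeff_sum]
  have hk := (hs μ).mp hμ
  rw [Finset.sum_eq_single k]
  · rw [coeff_homogeneousComponent, if_pos hk]
  · intro j _ hj
    rw [coeff_homogeneousComponent, if_neg (fun h => hj (h.symm.trans hk))]
  · intro h
    exact absurd (Finset.mem_Icc.mpr ⟨h1, h2⟩) h

/-! ### Derivatives -/

/-- The second derivative of `f` at `b` in the directions `x`, `y`. -/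
noncomputable def D2 {P ι : Type} [CommRing P] (f : MvPolynomial ι P) (b x y : ι → P) : P :=
  eval b (dd x (dd y f))

/-- the third derivative as a linear map -/
noncomputable def D3L (b x y z : ι → K) : MvPolynomial ι K →ₗ[K] K :=
  (aeval b : MvPolynomial ι K →ₐ[K] K).toLinearMap ∘ₗ
    (dd x : MvPolynomial ι K →ₗ[K] MvPolynomial ι K) ∘ₗ
    (dd y : MvPolynomial ι K →ₗ[K] MvPolynomial ι K) ∘ₗ
    (dd z : MvPolynomial ι K →ₗ[K] MvPolynomial ι K)

lemma D3L_apply (b x y z : ι → K) (f : MvPolynomial ι K) : D3L b x y z f = D3 f b x y z := rfl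

/-- the second derivative as a linear map -/
noncomputable def D2L (b x y : ι → K) : MvPolynomial ι K →ₗ[K] K :=
  (aeval b : MvPolynomial ι K →ₐ[K] K).toLinearMap ∘ₗ
    (dd x : MvPolynomial ι K →ₗ[K] MvPolynomial ι K) ∘ₗ
    (dd y : MvPolynomial ι K →ₗ[K] MvPolynomial ι K)

lemma D2L_apply (b x y : ι → K) (f : MvPolynomial ι K) : D2L b x y f = D2 f b x y := rfl

lemma dd_eq (x : ι → K) (p : MvPolynomial ι K) : dd x p = ∑ i, C (x i) * pderiv i p := by
  classical
  induction p using MvPolynomial.induction_on with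
  | C c => simp
  | add p q hp hq => rw [map_add, hp, hq, ← Finset.sum_add_distrib]; simp [mul_add]
  | mul_X p i hp =>
    rw [dd_mul, dd_X, hp]
    simp only [Derivation.leibniz, pderiv_X, smul_eq_mul, mul_add, Finset.sum_add_distrib]
    congr 1
    · rw [Finset.sum_eq_single i]
      · rw [Pi.single_eq_same]; ring
      · intro j _ hj
        rw [Pi.single_eq_of_ne hj.symm]; ring
      · intro h; exact absurd (Finset.mem_univ _) h
    · rw [Finset.mul_sum]
      exact Finset.sum_congr rfl fun j _ => by ring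

lemma dd_hom (x : ι → K) {p : MvPolynomial ι K} {n : ℕ} (h : p.IsHomogeneous n) :
    (dd x p).IsHomogeneous (n - 1) := by
  rw [dd_eq]
  refine IsHomogeneous.sum _ _ _ fun i _ => ?_
  have := (isHomogeneous_C ι (x i)).mul (h.pderiv (i := i))
  rwa [zero_add] at this

lemma dd_hom_zero (x : ι → K) {p : MvPolynomial ι K} (h : p.IsHomogeneous 0) : dd x p = 0 := by
  have h1 : p = C (coeff 0 p) := by
    rw [← totalDegree_eq_zero_iff_eq_C]
    exact Nat.le_zero.mp h.totalDegree_le
  rw [h1, dd_C]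

lemma eval_zero_hom {p : MvPolynomial ι K} {n : ℕ} (h : p.IsHomogeneous n) (hn : n ≠ 0) :
    eval 0 p = 0 := by
  rw [eval_zero, constantCoeff_eq]
  exact h.coeff_eq_zero (by simpa using hn.symm)

lemma D2_monomial (x y : ι → K) (μ : ι →₀ ℕ) (h : μ.degree ≠ 2) :
    D2L 0 x y (monomial μ 1) = 0 := by
  rw [D2L_apply]
  unfold D2
  have h1 : (monomial μ (1 : K)).IsHomogeneous μ.degree := isHomogeneous_monomial 1 rfl
  obtain ⟨n, hn⟩ : ∃ n, μ.degree = n := ⟨_, rfl⟩
  rw [hn] at h1 h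
  rcases n with _ | _ | n
  · rw [dd_hom_zero y h1, map_zero, map_zero]
  · rw [dd_hom_zero x (dd_hom y h1), map_zero]
  · exact eval_zero_hom (dd_hom x (dd_hom y h1)) (by omega)

lemma D3_monomial (x y z : ι → K) (μ : ι →₀ ℕ) (h : μ.degree ≠ 3) :
    D3L 0 x y z (monomial μ 1) = 0 := by
  rw [D3L_apply]
  unfold D3
  have h1 : (monomial μ (1 : K)).IsHomogeneous μ.degree := isHomogeneous_monomial 1 rfl
  obtain ⟨n, hn⟩ : ∃ n, μ.degree = n := ⟨_, rfl⟩
  rw [hn] at h1 h
  rcases n with _ | _ | _ | n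
  · rw [dd_hom_zero z h1, map_zero, map_zero, map_zero]
  · rw [dd_hom_zero y (dd_hom z h1), map_zero, map_zero]
  · rw [dd_hom_zero x (dd_hom y (dd_hom z h1)), map_zero]
  · exact eval_zero_hom (dd_hom x (dd_hom y (dd_hom z h1))) (by omega)

lemma dd_shf (b x : ι → K) (p : MvPolynomial ι K) : dd x (shf b p) = shf b (dd x p) := by
  unfold shf
  induction p using MvPolynomial.induction_on with
  | C c =>
    have h1 : (algebraMap K (MvPolynomial ι K)) c = C c := rfl
    rw [aeval_C, h1, dd_C, map_zero]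
  | add p q hp hq => rw [map_add, map_add, map_add, map_add, hp, hq]
  | mul_X p i hp =>
    have h1 : ∀ c : K, (algebraMap K (MvPolynomial ι K)) c = C c := fun _ => rfl
    rw [map_mul, dd_mul, dd_mul, map_add, map_mul, map_mul, aeval_X, map_add, dd_X, dd_C, hp,
      add_zero, aeval_C, h1]

lemma eval_shf (b : ι → K) (p : MvPolynomial ι K) : eval 0 (shf b p) = eval b p := by
  unfold shf
  induction p using MvPolynomial.induction_on with
  | C c => simp
  | add p q hp hq => rw [map_add, map_add, map_add, hp, hq]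
  | mul_X p i hp => rw [map_mul, map_mul, map_mul, hp, aeval_X]; simp

lemma D3_shf (b x y z : ι → K) (D : ℕ) (hD : 3 ≤ D) (p : MvPolynomial ι K) :
    D3L 0 x y z (cut D (shf b p)) = D3 p b x y z := by
  rw [lin_cut _ 3 D (D3_monomial x y z) (by norm_num) hD, D3L_apply]
  unfold D3
  rw [dd_shf, dd_shf, dd_shf, eval_shf]

lemma D2_shf (b x y : ι → K) (D : ℕ) (hD : 2 ≤ D) (p : MvPolynomial ι K) :
    D2L 0 x y (cut D (shf b p)) = D2 p b x y := by
  rw [lin_cut _ 2 D (D2_monomial x y) (by norm_num) hD, D2L_apply]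
  unfold D2
  rw [dd_shf, dd_shf, eval_shf]

lemma rankLE_of {m : ℕ} {T : Type} [Fintype T] (a b c : T → Fin m → Fin m → K)
    (S : (Fin m × Fin m) × (Fin m × Fin m) × (Fin m × Fin m) → K)
    (h : ∀ i j j' k k' l, S ((i, j), (j', k), (k', l)) = ∑ r, a r i j * b r j' k * c r k' l) :
    S ∈ rankLE K m (Fintype.card T) := by
  classical
  let e := Fintype.equivFin T
  refine ⟨fun r => a (e.symm r), fun r => b (e.symm r), fun r => c (e.symm r), ?_⟩
  intro i j j' k k' l
  rw [h]
  exact (Equiv.sum_comp e.symm (fun r => a r i j * b r j' k * c r k' l)).symm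

/-- **The second derivatives of polynomials with few multiplications**. -/
theorem quadratic {P V : Type} [CommRing P] {M : ℕ} {f : V → MvPolynomial ι P}
    (h : NSComp P ι V M f) (b : ι → P) :
    ∃ (α β : Fin M → (ι → P) → P) (c : V → Fin M → P), ∀ v x y, D2 (f v) b x y =
      ∑ q, c v q * (α q x * β q y + α q y * β q x) := by
  classical
  obtain ⟨a, c, o, g, hg, ho⟩ := h
  let A : ℕ → MvPolynomial ι P := fun r => (a r).val X r g
  let B : ℕ → MvPolynomial ι P := fun r => (c r).val X r g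
  let α : Fin M → (ι → P) → P := fun q x => eval b (dd x (A q))
  let β : Fin M → (ι → P) → P := fun q x => eval b (dd x (B q))
  let S2 : Submodule P ((ι → P) → (ι → P) → P) := Submodule.span P
    (Set.range fun q : Fin M => fun x y => α q x * β q y + α q y * β q x)
  have h2sum : ∀ (u : LF P ι) (r : ℕ), (∀ s < r, (fun x y => eval b (dd x (dd y (g s)))) ∈ S2) →
      (fun x y => eval b (dd x (dd y (u.val X r g)))) ∈ S2 := by
    intro u r hr
    have e1 : (fun x y => eval b (dd x (dd y (u.val X r g)))) =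
        ∑ s ∈ Finset.range r, u.r s • (fun x y : ι → P => eval b (dd x (dd y (g s)))) := by
      funext x y
      rw [dd2_val, map_sum, Finset.sum_apply, Finset.sum_apply]
      refine Finset.sum_congr rfl fun s _ => ?_
      rw [map_mul, eval_C]
      rfl
    rw [e1]
    exact Submodule.sum_mem _ fun s hs => Submodule.smul_mem _ _ (hr s (Finset.mem_range.mp hs))
  have h2 : ∀ r < M, (fun x y => eval b (dd x (dd y (g r)))) ∈ S2 := by
    intro r
    induction r using Nat.strong_induction_on with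
    | _ r ih =>
      intro hr
      have hA := h2sum (a r) r fun s hs => ih s hs (hs.trans hr)
      have hB := h2sum (c r) r fun s hs => ih s hs (hs.trans hr)
      have e1 : (fun x y => eval b (dd x (dd y (g r)))) =
          eval b (A r) • (fun x y : ι → P => eval b (dd x (dd y (B r)))) +
          eval b (B r) • (fun x y : ι → P => eval b (dd x (dd y (A r)))) +
          (fun x y => α ⟨r, hr⟩ x * β ⟨r, hr⟩ y + α ⟨r, hr⟩ y * β ⟨r, hr⟩ x) := by
        funext x y
        rw [hg r hr]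
        show eval b (dd x (dd y (A r * B r))) = eval b (A r) * eval b (dd x (dd y (B r))) +
          eval b (B r) * eval b (dd x (dd y (A r))) +
          (eval b (dd x (A r)) * eval b (dd y (B r)) + eval b (dd y (A r)) * eval b (dd x (B r)))
        rw [dd_mul, map_add, dd_mul, dd_mul, map_add, map_add, map_add, map_mul, map_mul, map_mul,
          map_mul]
        ring
      rw [e1]
      exact Submodule.add_mem _ (Submodule.add_mem _ (Submodule.smul_mem _ _ hB)
        (Submodule.smul_mem _ _ hA)) (Submodule.subset_span ⟨⟨r, hr⟩, rfl⟩)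
  have h3 : ∀ v, ∃ k : Fin M → P, ∀ x y, D2 (f v) b x y =
      ∑ q, k q * (α q x * β q y + α q y * β q x) := by
    intro v
    obtain ⟨k, hk⟩ := (Submodule.mem_span_range_iff_exists_fun P).mp (h2sum (o v) M h2)
    refine ⟨k, fun x y => ?_⟩
    unfold D2
    rw [ho v]
    have := congrFun (congrFun hk x) y
    rw [← this, Finset.sum_apply, Finset.sum_apply]
    rfl
  choose k hk using h3
  exact ⟨α, β, k, hk⟩

end functional

/-- The tree certifies the values of `f`, generically, with at most `L` multiplications and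
divisions: there is `M` such that, for `x` in a Zariski dense set, it can accept `(x, f x)`, and
at most `M` pairs `(x, y)` with this `x`. -/
def Certifies {K ι V : Type} [Field K] [Fintype ι] [Fintype V] (t : NTree K (ι ⊕ V)) (L : ℕ)
    (f : V → MvPolynomial ι K) : Prop :=
  ∃ M : ℕ, ∀ p : MvPolynomial ι K, p ≠ 0 → ∃ x : ι → K, eval x p ≠ 0 ∧
    t.Accepts (Sum.elim x fun v => eval x (f v)) L ∧
    ∃ 𝒞 : Fin M → V → K, ∀ y : V → K, t.Accepts (Sum.elim x y) L → ∃ i, y = 𝒞 i

/-- **Taylor polynomials of certified maps.** -/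
theorem taylor {K ι V : Type} [Field K] [IsAlgClosed K] [CharZero K] [Fintype ι] [Fintype V]
    {L : ℕ} {t : NTree K (ι ⊕ V)} {f : V → MvPolynomial ι K} (H : Certifies t L f) (D : ℕ)
    (b : ι → K) :
    InClosure {g | NSComp K ι V (L * (D * (D - 1) / 2)) g} (fun v => cut D (shf b (f v))) := by
  obtain ⟨M, H⟩ := H
  exact gen' t f H D b

lemma rank_cubic {K ι : Type} [Field K] [Fintype ι] {m N : ℕ} (g : MvPolynomial ι K)
    (hg : NSComp K ι Unit N (fun _ => g)) (x y z : Fin m → Fin m → ι → K)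
    (S : (Fin m × Fin m) × (Fin m × Fin m) × (Fin m × Fin m) → K)
    (hS : ∀ i j j' k k' l, S ((i, j), (j', k), (k', l)) = D3 g 0 (x i j) (y j' k) (z k' l)) :
    S ∈ rankLE K m (Fintype.card (Fin N × Fin 6)) := by
  obtain ⟨α, β, w, hc⟩ := cubic hg 0
  refine rankLE_of
    (fun t i j => ![α t.1 (x i j), β t.1 (x i j), α t.1 (x i j), β t.1 (x i j), w t.1 (x i j),
      w t.1 (x i j)] t.2)
    (fun t i j => ![β t.1 (y i j), α t.1 (y i j), w t.1 (y i j), w t.1 (y i j), α t.1 (y i j),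
      β t.1 (y i j)] t.2)
    (fun t i j => ![w t.1 (z i j), w t.1 (z i j), β t.1 (z i j), α t.1 (z i j), β t.1 (z i j),
      α t.1 (z i j)] t.2) _ ?_
  intro i j j' k k' l
  rw [hS, hc, Fintype.sum_prod_type]
  refine Finset.sum_congr rfl fun q _ => ?_
  rw [Fin.sum_univ_six]
  simp
  ring

lemma rank_quadratic {K ι V : Type} [Field K] [Fintype ι] [Fintype V] {m N : ℕ}
    (g : V → MvPolynomial ι K)
    (hg : NSComp K ι V N g) (x y : Fin m → Fin m → ι → K) (z : Fin m → Fin m → V → K)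
    (S : (Fin m × Fin m) × (Fin m × Fin m) × (Fin m × Fin m) → K)
    (hS : ∀ i j j' k k' l, S ((i, j), (j', k), (k', l)) =
      ∑ v, z k' l v * D2 (g v) 0 (x i j) (y j' k)) :
    S ∈ rankLE K m (Fintype.card (Fin N × Fin 2)) := by
  obtain ⟨α, β, c, hc⟩ := quadratic hg 0
  refine rankLE_of
    (fun t i j => ![α t.1 (x i j), β t.1 (x i j)] t.2)
    (fun t i j => ![β t.1 (y i j), α t.1 (y i j)] t.2)
    (fun t i j => ∑ v, z i j v * c v t.1) _ ?_
  intro i j j' k k' l
  rw [hS]
  simp only [hc, Fintype.sum_prod_type, Fin.sum_univ_two, Finset.mul_sum]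
  rw [Finset.sum_comm]
  refine Finset.sum_congr rfl fun q _ => ?_
  rw [← Finset.sum_add_distrib]
  refine Finset.sum_congr rfl fun v _ => ?_
  simp
  ring

theorem scalar_clos {K ι : Type} [Field K] [CharZero K] [Fintype ι]
    {N m : ℕ} {f : MvPolynomial ι K}
    (b : ι → K) (x y z : Fin m → Fin m → ι → K) (γ : K) (hγ : γ ≠ 0)
    (hf : ∀ i j j' k k' l, D3 f b (x i j) (y j' k) (z k' l) =
      if j = j' ∧ k = k' ∧ l = i then γ else 0) (hm : 0 < m)
    (h1 : InClosure {g : Unit → MvPolynomial ι K | NSComp K ι Unit N g} fun _ => cut 3 (shf b f)) :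
    (m : ℝ) ^ omega ≤ (Fintype.card (Fin N × Fin 6) : ℕ) := by
  have h3 : ∀ g : Unit → MvPolynomial ι K, NSComp K ι Unit N g →
      (fun q : (Fin m × Fin m) × (Fin m × Fin m) × (Fin m × Fin m) =>
        ∑ v, D3L 0 (x q.1.1 q.1.2) (y q.2.1.1 q.2.1.2) (z q.2.2.1 q.2.2.2) (g v)) ∈
      rankLE K m (Fintype.card (Fin N × Fin 6)) := by
    intro g hg
    refine rank_cubic (g ()) hg x y z _ ?_
    intro i j j' k k' l
    simp only [Finset.univ_unique, Finset.sum_singleton]
    rfl
  have h4 := clos_of_inClosure (Q := (Fin m × Fin m) × (Fin m × Fin m) × (Fin m × Fin m)) h1 3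
      (fun q _ => D3L 0 (x q.1.1 q.1.2) (y q.2.1.1 q.2.1.2) (z q.2.2.1 q.2.2.2))
      (fun q _ μ hμ => D3_monomial _ _ _ μ hμ) _ h3
  refine clos_omega hm γ hγ _ ?_ h4
  intro i j j' k k' l
  simp only [Finset.univ_unique, Finset.sum_singleton]
  rw [D3_shf _ _ _ _ _ le_rfl, hf]

theorem vector_clos {K ι V : Type} [Field K] [CharZero K] [Fintype ι] [Fintype V]
    {N m : ℕ} {f : V → MvPolynomial ι K}
    (b : ι → K) (x y : Fin m → Fin m → ι → K) (z : Fin m → Fin m → V → K) (γ : K) (hγ : γ ≠ 0)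
    (hf : ∀ i j j' k k' l, ∑ v, z k' l v * D2 (f v) b (x i j) (y j' k) =
      if j = j' ∧ k = k' ∧ l = i then γ else 0) (hm : 0 < m)
    (h1 : InClosure {g : V → MvPolynomial ι K | NSComp K ι V N g} fun v => cut 2 (shf b (f v))) :
    (m : ℝ) ^ omega ≤ (Fintype.card (Fin N × Fin 2) : ℕ) := by
  have h3 : ∀ g : V → MvPolynomial ι K, NSComp K ι V N g →
      (fun q : (Fin m × Fin m) × (Fin m × Fin m) × (Fin m × Fin m) =>
        ∑ v, (z q.2.2.1 q.2.2.2 v • D2L 0 (x q.1.1 q.1.2) (y q.2.1.1 q.2.1.2)) (g v)) ∈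
      rankLE K m (Fintype.card (Fin N × Fin 2)) := by
    intro g hg
    refine rank_quadratic g hg x y z _ ?_
    intro i j j' k k' l
    simp only [LinearMap.smul_apply, smul_eq_mul]
    rfl
  have h4 := clos_of_inClosure (Q := (Fin m × Fin m) × (Fin m × Fin m) × (Fin m × Fin m)) h1 2
      (fun q v => z q.2.2.1 q.2.2.2 v • D2L 0 (x q.1.1 q.1.2) (y q.2.1.1 q.2.1.2))
      (fun q v μ hμ => by
        rw [LinearMap.smul_apply, D2_monomial _ _ μ hμ, smul_zero]) _ h3
  refine clos_omega hm γ hγ _ ?_ h4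
  intro i j j' k k' l
  simp only [LinearMap.smul_apply, smul_eq_mul]
  rw [← hf]
  exact Finset.sum_congr rfl fun v _ => by rw [D2_shf _ _ _ _ le_rfl]

/-- **Scalar functions.** -/
theorem scalar {K ι : Type} [Field K] [IsAlgClosed K] [CharZero K] [Fintype ι]
    {L m : ℕ} {t : NTree K (ι ⊕ Unit)} {f : MvPolynomial ι K} (H : Certifies t L fun _ => f)
    (b : ι → K) (x y z : Fin m → Fin m → ι → K) (γ : K) (hγ : γ ≠ 0)
    (hf : ∀ i j j' k k' l, D3 f b (x i j) (y j' k) (z k' l) =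
      if j = j' ∧ k = k' ∧ l = i then γ else 0) (hm : 0 < m) :
    (m : ℝ) ^ omega ≤ 18 * L := by
  have h1 := taylor H 3 b
  obtain ⟨N, hN⟩ : ∃ N, L * (3 * (3 - 1) / 2) = N := ⟨_, rfl⟩
  rw [hN] at h1
  have h2 := scalar_clos b x y z γ hγ hf hm h1
  have h3 : Fintype.card (Fin N × Fin 6) = 18 * L := by
    rw [Fintype.card_prod, Fintype.card_fin, Fintype.card_fin]
    have : L * (3 * (3 - 1) / 2) = L * 3 := by norm_num
    omega
  rw [h3] at h2
  exact_mod_cast h2

/-- **Maps.** -/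
theorem vector {K ι V : Type} [Field K] [IsAlgClosed K] [CharZero K] [Fintype ι] [Fintype V]
    {L m : ℕ} {t : NTree K (ι ⊕ V)} {f : V → MvPolynomial ι K} (H : Certifies t L f)
    (b : ι → K) (x y : Fin m → Fin m → ι → K) (z : Fin m → Fin m → V → K) (γ : K) (hγ : γ ≠ 0)
    (hf : ∀ i j j' k k' l, ∑ v, z k' l v * D2 (f v) b (x i j) (y j' k) =
      if j = j' ∧ k = k' ∧ l = i then γ else 0) (hm : 0 < m) :
    (m : ℝ) ^ omega ≤ 2 * L := by
  have h1 := taylor H 2 b
  obtain ⟨N, hN⟩ : ∃ N, L * (2 * (2 - 1) / 2) = N := ⟨_, rfl⟩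
  rw [hN] at h1
  have h2 := vector_clos b x y z γ hγ hf hm h1
  have h3 : Fintype.card (Fin N × Fin 2) = 2 * L := by
    rw [Fintype.card_prod, Fintype.card_fin, Fintype.card_fin]
    have : L * (2 * (2 - 1) / 2) = L * 1 := by norm_num
    omega
  rw [h3] at h2
  exact_mod_cast h2

end Pool.Agent.R562.CT
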