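import Pool.Agent.R562.CT.Tay
import Pool.Agent.W966.Vg.Gen
import Pool.Agent.W966.Vg.Parts

/-!
# Truncated Taylor expansions of verified polynomial maps

The proofs follow those of `finish`, `main_G` and `gen` in `Pool.Agent.W966.Vg`.
-/

set_option autoImplicit false

namespace Pool.Agent.R562.CT

open MvPolynomial Filter Pool.Agent.W966.Vf Pool.Agent.W966.Vg

/-- The sum of the homogeneous parts of `p` of the degrees `1, …, D`. -/
noncomputable def cut {R ι : Type} [CommRing R] (D : ℕ) (p : MvPolynomial ι R) :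
    MvPolynomial ι R :=
  ∑ k ∈ Finset.Icc 1 D, homogeneousComponent k p

/-- The polynomial `f (X + b)`. -/
noncomputable def shf {K S ι : Type} [CommRing K] [CommRing S] [Algebra K S] (b : ι → S)
    (p : MvPolynomial ι K) : MvPolynomial ι S :=
  aeval (fun i => X i + C (b i) : ι → MvPolynomial ι S) p

lemma coeff_lineX {Ω Ω' ι : Type} [Field Ω] [Field Ω'] [Algebra Ω Ω'] (u : ι → Ω')
    (Q : MvPolynomial ι Ω) (k : ℕ) :
    (aeval (fun i => Polynomial.C (u i) * Polynomial.X) Q : Polynomial Ω').coeff k =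
      aeval u (homogeneousComponent k Q) := by
  induction Q using MvPolynomial.induction_on' with
  | monomial m c =>
    have h1 : (aeval (fun i => Polynomial.C (u i) * Polynomial.X) (monomial m c) :
        Polynomial Ω') = Polynomial.C (aeval u (monomial m c)) *
          Polynomial.X ^ m.degree := by
      rw [aeval_monomial, aeval_monomial, map_mul, Polynomial.algebraMap_apply]
      rw [mul_assoc]
      congr 1
      rw [Finsupp.prod, Finsupp.prod, map_prod, Finsupp.degree_apply,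
        ← Finset.prod_pow_eq_pow_sum,
        ← Finset.prod_mul_distrib]
      exact Finset.prod_congr rfl fun i _ => by rw [mul_pow, Polynomial.C_pow]
    rw [h1, Polynomial.coeff_C_mul, Polynomial.coeff_X_pow,
      homogeneousComponent_of_mem (m := k) (n := m.degree)
        ((mem_homogeneousSubmodule _ _).mpr (isHomogeneous_monomial c rfl))]
    split_ifs
    · rw [mul_one]
    · rw [mul_zero, map_zero]
  | add p q hp hq => rw [map_add, Polynomial.coeff_add, hp, hq, map_add, map_add]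

lemma line_shf {K Ω Ω' ι : Type} [Field K] [Field Ω] [Field Ω'] [Algebra K Ω] [Algebra Ω Ω']
    [Algebra K Ω'] (hK : ∀ z : K, algebraMap K Ω' z = algebraMap Ω Ω' (algebraMap K Ω z))
    (b : ι → Ω) (u : ι → Ω') (p : MvPolynomial ι K) :
    (aeval (fun i => Polynomial.C (algebraMap Ω Ω' (b i)) + Polynomial.C (u i) * Polynomial.X) p :
      Polynomial Ω') = aeval (fun i => Polynomial.C (u i) * Polynomial.X) (shf b p) := by
  unfold shf
  induction p using MvPolynomial.induction_on with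
  | C c =>
    have : (algebraMap K (MvPolynomial ι Ω)) c = C (algebraMap K Ω c) := rfl
    rw [aeval_C, aeval_C, this, aeval_C, Polynomial.algebraMap_apply, Polynomial.algebraMap_apply,
      hK]
  | add p q hp hq => rw [map_add, map_add, map_add, hp, hq]
  | mul_X p i hp =>
    rw [map_mul, map_mul, map_mul, hp, aeval_X, aeval_X, map_add, aeval_X, aeval_C,
      add_comm (Polynomial.C (u i) * Polynomial.X), Polynomial.algebraMap_apply]

lemma homogeneousComponent_map {R S ι : Type} [CommRing R] [CommRing S] (φ : R →+* S) (k : ℕ)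
    (p : MvPolynomial ι R) :
    homogeneousComponent k (MvPolynomial.map φ p) =
      MvPolynomial.map φ (homogeneousComponent k p) := by
  ext m
  rw [coeff_homogeneousComponent, coeff_map, coeff_map, coeff_homogeneousComponent]
  split_ifs
  · rfl
  · exact (map_zero φ).symm

lemma cut_map {R S ι : Type} [CommRing R] [CommRing S] (φ : R →+* S) (D : ℕ)
    (p : MvPolynomial ι R) : cut D (MvPolynomial.map φ p) = MvPolynomial.map φ (cut D p) := by
  unfold cut
  rw [map_sum]
  exact Finset.sum_congr rfl fun k _ => homogeneousComponent_map φ k p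

lemma shf_map {K S T ι : Type} [CommRing K] [CommRing S] [CommRing T] [Algebra K S] [Algebra K T]
    (φ : S →ₐ[K] T) (b : ι → S) (p : MvPolynomial ι K) :
    MvPolynomial.map (φ : S →+* T) (shf b p) = shf (fun i => φ (b i)) p := by
  unfold shf
  induction p using MvPolynomial.induction_on with
  | C c =>
    have h1 : (algebraMap K (MvPolynomial ι S)) c = C (algebraMap K S c) := rfl
    have h2 : (algebraMap K (MvPolynomial ι T)) c = C (algebraMap K T c) := rfl
    rw [aeval_C, aeval_C, h1, h2, map_C]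
    congr 1
    exact φ.commutes c
  | add p q hp hq => rw [map_add, map_add, map_add, hp, hq]
  | mul_X p i hp =>
    rw [map_mul, map_mul, map_mul, hp, aeval_X, aeval_X, map_add, map_X, map_C]
    rfl

/-- **From a computation over power series to the closure.** -/
theorem finish' {K F Ω : Type} [Field K]
    [CharZero K] [Field F] [Algebra K F] [Field Ω] [Algebra F Ω] [Algebra K Ω]
    [IsScalarTower K F Ω] {ι V : Type} [Fintype ι] [Fintype V] (M n D : ℕ)
    (f : V → MvPolynomial ι K) (x : ι → F) (hx : AlgebraicIndependent K x)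
    (G Fv : V → MvPolynomial ι (PowerSeries Ω))
    (hGc : NSComp (PowerSeries Ω) ι V M G) (hFG : ∀ v, G v = C (PowerSeries.X ^ n) * Fv v)
    (hred : ∀ v, MvPolynomial.map PowerSeries.constantCoeff (Fv v) =
      cut D (shf (fun i => algebraMap F Ω (x i)) (f v))) (b : ι → K) :
    InClosure {g | NSComp K ι V M g} fun v => cut D (shf b (f v)) := by
  intro h hh
  obtain ⟨P, _, _, hinjP⟩ := exists_frac (PowerSeries Ω)
  have : Infinite K := CharZero.infinite K
  have hX : algebraMap (PowerSeries Ω) P (PowerSeries.X ^ n) ≠ 0 := by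
    intro h1
    have := hinjP (h1.trans (map_zero (algebraMap (PowerSeries Ω) P)).symm)
    exact pow_ne_zero _ PowerSeries.X_ne_zero this
  have h1 : NSComp P ι V M
      (fun v => MvPolynomial.map (algebraMap (PowerSeries Ω) P) (Fv v)) :=
    Pool.Agent.W366.VG.bas (PowerSeries Ω) P ι V M _ G Fv hGc hX hFG
  let _ : Algebra K P := ((algebraMap (PowerSeries Ω) P).comp
    (algebraMap K (PowerSeries Ω))).toAlgebra
  have h7 : ∀ z : K, algebraMap K P z =
      algebraMap (PowerSeries Ω) P (algebraMap K (PowerSeries Ω) z) := fun _ => rfl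
  have h0 := Pool.Agent.W320.VG.clos K P ι V M h (fun g hg => hh g hg)
    (fun v => MvPolynomial.map (algebraMap (PowerSeries Ω) P) (Fv v)) h1
  -- reduction to `Ω`
  have h2 : aeval (fun p : V × (ι →₀ ℕ) => coeff p.2 (Fv p.1)) h = 0 := by
    apply hinjP
    rw [map_zero, ← h0]
    simp only [coeff_map]
    have e1 : (algebraMap K P) = (algebraMap (PowerSeries Ω) P).comp (algebraMap K _) :=
      RingHom.ext h7
    rw [aeval_def, aeval_def, e1]
    exact MvPolynomial.eval₂_comp_left (algebraMap (PowerSeries Ω) P) (algebraMap K _) _ h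
  have h3 := congrArg (PowerSeries.constantCoeff (R := Ω)) h2
  rw [map_zero, aeval_def, MvPolynomial.eval₂_comp_left] at h3
  have e2 : (PowerSeries.constantCoeff (R := Ω)).comp (algebraMap K (PowerSeries Ω)) =
      algebraMap K Ω := by
    refine RingHom.ext fun c => ?_
    rw [RingHom.comp_apply, PowerSeries.algebraMap_apply, PowerSeries.constantCoeff_C]
  -- the generic coefficients
  let c : V × (ι →₀ ℕ) → MvPolynomial ι K := fun p =>
    coeff p.2 (cut D (shf (X : ι → MvPolynomial ι K) (f p.1)))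
  have hc : ∀ (S : Type) [CommRing S] [Algebra K S] (y : ι → S) (p : V × (ι →₀ ℕ)),
      coeff p.2 (cut D (shf y (f p.1))) = aeval y (c p) := by
    intro S _ _ y p
    have e3 := shf_map (aeval y : MvPolynomial ι K →ₐ[K] S) X (f p.1)
    simp only [aeval_X] at e3
    rw [← e3, cut_map, coeff_map]
    rfl
  have e3 : ((PowerSeries.constantCoeff (R := Ω)) ∘ fun p : V × (ι →₀ ℕ) =>
      coeff p.2 (Fv p.1)) = fun p => aeval (fun i => algebraMap F Ω (x i)) (c p) := by
    funext p
    have := congrArg (coeff p.2) (hred p.1)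
    rw [coeff_map, hc Ω] at this
    exact this
  rw [e2, e3] at h3
  have h4 : aeval (fun i => algebraMap F Ω (x i)) (aeval c h : MvPolynomial ι K) = 0 := by
    rw [← h3, comp_aeval_apply]
    rfl
  have h5 : (aeval c h : MvPolynomial ι K) = 0 := by
    apply hx
    rw [map_zero]
    apply (algebraMap F Ω).injective
    rw [map_zero, ← h4]
    exact (MvPolynomial.aeval_algebraMap_apply Ω x _).symm
  have h6 := congrArg (fun q => aeval b q) h5
  simp only [map_zero] at h6
  rw [comp_aeval_apply] at h6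
  rw [← h6]
  have e4 : (fun p : V × (ι →₀ ℕ) => coeff p.2 (cut D (shf b (f p.1)))) =
      fun p => aeval b (c p) := by
    funext p
    exact hc K b p
  rw [e4]
  rfl

/-- **The main theorem over a large field.** -/
theorem main_G' {K F : Type} [Field K] [CharZero K] [Field F] [IsAlgClosed F] [Algebra K F]
    {ι σ V : Type} [Fintype ι] [Fintype σ] [Fintype V] {L M : ℕ} {J₂ J₃ : Type}
    [Fintype J₂] [Fintype J₃] (α β δ : Fin L → AF K (ι ⊕ Fin 0 ⊕ σ))
    (lin : J₂ → AF K (ι ⊕ Fin 0 ⊕ σ)) (ne : J₃ → AF K (ι ⊕ Fin 0 ⊕ σ))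
    (o : V → AF K (ι ⊕ Fin 0 ⊕ σ)) (x : ι → F) (hx : AlgebraicIndependent K x) (a : Fin 0 → F)
    (s₀ : σ → F) (h0 : Sat α β δ lin ne (pnt x a s₀)) (𝒞 : Fin M → V → F)
    (sound : ∀ s, Sat α β δ lin ne (pnt x a s) → ∃ i, ∀ v, (o v).val (pnt x a s) = 𝒞 i v)
    (f : V → MvPolynomial ι K)
    (hf : ∀ v, (o v).val (pnt x a s₀) = aeval x (f v)) (D : ℕ) (b : ι → K) :
    InClosure {g | NSComp K ι V (L * (D * (D - 1) / 2)) g} (fun v => cut D (shf b (f v))) := by
  classical
  obtain ⟨T, Ω₁, _, _, w₀, hT, hiso, hout⟩ := component α β δ lin ne o x a s₀ h0 𝒞 sound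
  obtain ⟨Ω, _, _, _, _, w₁, γ, g, e, c, hAI, hg, heq, hval⟩ := solve (K := K) x a T w₀
    (Sum.elim α fun _ => 0 : Fin L ⊕ J₂ → AF K (ι ⊕ Fin 0 ⊕ σ))
    (Sum.elim β fun _ => 0 : Fin L ⊕ J₂ → AF K (ι ⊕ Fin 0 ⊕ σ))
    (Sum.elim δ lin : Fin L ⊕ J₂ → AF K (ι ⊕ Fin 0 ⊕ σ)) hT hiso
  have hval' : ∀ v, PowerSeries.constantCoeff ((o v).val (pt x a T w₁ g)) =
      algebraMap F Ω (aeval x (f v)) := fun v => hval (o v) _ (by rw [hout, hf])
  obtain ⟨Ω', _, _, _, u, lam, mu, W, hu, hKΩ', hW, hTay⟩ := tay K F Ω ι σ (Fin L ⊕ J₂) x a T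
    w₁ g γ e _ _ _ c hx hAI hg heq
  obtain ⟨G, hG, hGc⟩ := Pool.Agent.W613.VG.rec_main K Ω Ω' ι (ι ⊕ Fin 0 ⊕ σ) V J₂ L D e _ _
    lam mu u W o (fun _ => 0) hKΩ' (fun _ => rfl) hW
  have hF := fun v => Pool.Agent.W320.VG.cmp Ω Ω' ι u (2 * D * e) (G v) _ hu (hG v)
  choose Fv hFG hFv using hF
  have hred : ∀ v, MvPolynomial.map PowerSeries.constantCoeff (Fv v) =
      cut D (shf (fun i => algebraMap F Ω (x i)) (f v)) := by
    intro v
    apply hu
    rw [hFv v, map_zero, zero_add, map_sum]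
    unfold cut
    rw [map_sum]
    refine Finset.sum_congr rfl fun k hk => ?_
    rw [hTay (o v) (f v) (hval' v) k (Finset.mem_Icc.mp hk).1, line_shf hKΩ', coeff_lineX]
  exact finish' (L * (D * (D - 1) / 2)) (2 * D * e) D f x hx G Fv hGc hFG hred b

/-- **The general theorem.** -/
theorem gen' {K ι V : Type} [Field K] [IsAlgClosed K] [CharZero K] [Fintype ι] [Fintype V]
    {L M : ℕ} (t : NTree K (ι ⊕ V)) (f : V → MvPolynomial ι K)
    (H : ∀ p : MvPolynomial ι K, p ≠ 0 → ∃ x : ι → K, eval x p ≠ 0 ∧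
      t.Accepts (Sum.elim x fun v => eval x (f v)) L ∧
      ∃ 𝒞 : Fin M → V → K, ∀ y : V → K, t.Accepts (Sum.elim x y) L → ∃ i, y = 𝒞 i) (D : ℕ)
    (b : ι → K) :
    InClosure {g | NSComp K ι V (L * (D * (D - 1) / 2)) g} (fun v => cut D (shf b (f v))) := by
  classical
  obtain ⟨I, 𝒰, x, hx, hindep⟩ := exists_generic_dense (K := K) (κ := ι)
    (fun x => t.Accepts (Sum.elim x fun v => eval x (f v)) L ∧
      ∃ 𝒞 : Fin M → V → K, ∀ y : V → K, t.Accepts (Sum.elim x y) L → ∃ i, y = 𝒞 i) H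
  choose hacc 𝒞 h𝒞 using hx
  have hpath : ∀ S, ∃ p ∈ paths t, p.muls ≤ L ∧ ∃ g' : ℕ → K,
      p.Ok (Sum.elim (x S) fun v => eval (x S) (f v)) g' 0 := by
    intro S
    obtain ⟨p, hp, hm, g', -, hok⟩ := path_of_acc _ t 0 0 L (hacc S)
    exact ⟨p, hp, hm, g', hok⟩
  obtain ⟨p, hp, hpS⟩ := ultra_const (𝒰 := 𝒰) (paths t) (paths_finite t)
    (fun S p => p.muls ≤ L ∧ ∃ g' : ℕ → K,
      p.Ok (Sum.elim (x S) fun v => eval (x S) (f v)) g' 0) (Eventually.of_forall hpath)
  have hmuls : p.muls ≤ L := by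
    obtain ⟨S, hS⟩ := hpS.exists
    exact hS.1
  have hg : ∀ S, ∃ g' : ℕ → K, (p.muls ≤ L ∧ ∃ g' : ℕ → K,
      p.Ok (Sum.elim (x S) fun v => eval (x S) (f v)) g' 0) →
        p.Ok (Sum.elim (x S) fun v => eval (x S) (f v)) g' 0 := by
    intro S
    by_cases h : ∃ g' : ℕ → K, p.Ok (Sum.elim (x S) fun v => eval (x S) (f v)) g' 0
    · obtain ⟨g', hg'⟩ := h
      exact ⟨g', fun _ => hg'⟩
    · exact ⟨0, fun h' => absurd h'.2 h⟩
  choose g hg using hg
  have hgS : ∀ᶠ S in (𝒰 : Filter I),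
      p.Ok (Sum.elim (x S) fun v => eval (x S) (f v)) (g S) 0 := hpS.mono fun S hS => hg S hS
  obtain ⟨N', hN'⟩ : ∃ N', p.fin 0 = N' := ⟨_, rfl⟩
  let xF : ι → UP K 𝒰 := fun e => cu 𝒰 (fun S => x S e)
  let aF : Fin 0 → UP K 𝒰 := fun t => t.elim0
  have hval : ∀ (yy : I → V → K) (gg : I → ℕ → K) (f : LF K (ι ⊕ V)),
      (toAF N' f).val (pnt xF aF (Sum.elim (fun v => cu 𝒰 (fun S => yy S v))
        (fun s : Fin N' => cu 𝒰 (fun S => gg S s)))) =
        cu 𝒰 (fun S => f.val (Sum.elim (x S) (yy S)) N' (gg S)) := by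
    intro yy gg f
    have e2 : pnt xF aF (Sum.elim (fun v => cu 𝒰 (fun S => yy S v))
        (fun s : Fin N' => cu 𝒰 (fun S => gg S s))) =
        fun i => cu 𝒰 (fun S => pnt (x S) (fun t : Fin 0 => (t.elim0 : K))
          (Sum.elim (yy S) (fun s : Fin N' => gg S s)) i) := by
      funext i
      rcases i with i | i | i | i
      · rfl
      · exact i.elim0
      · rfl
      · rfl
    rw [e2, los_val (𝒰 := 𝒰) (toAF N' f)
      (fun i S => pnt (x S) (fun t : Fin 0 => (t.elim0 : K))
          (Sum.elim (yy S) (fun s : Fin N' => gg S s)) i)]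
    congr 1
    funext S
    exact toAF_val N' f (x S) _ (yy S) (gg S)
  let α : Fin (p.msys 0).length → AF K (ι ⊕ Fin 0 ⊕ (V ⊕ Fin N')) :=
    fun j => toAF N' ((p.msys 0).get j).1
  let β : Fin (p.msys 0).length → AF K (ι ⊕ Fin 0 ⊕ (V ⊕ Fin N')) :=
    fun j => toAF N' ((p.msys 0).get j).2.1
  let δ : Fin (p.msys 0).length → AF K (ι ⊕ Fin 0 ⊕ (V ⊕ Fin N')) :=
    fun j => toAF N' ((p.msys 0).get j).2.2
  let lin : Fin (p.lsys 0).length → AF K (ι ⊕ Fin 0 ⊕ (V ⊕ Fin N')) :=
    fun j => toAF N' ((p.lsys 0).get j)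
  let ne : Fin (p.nsys 0).length → AF K (ι ⊕ Fin 0 ⊕ (V ⊕ Fin N')) :=
    fun j => toAF N' ((p.nsys 0).get j)
  have hlist : ∀ {α : Type} (l : List α) (P : α → Prop),
      (∀ x ∈ l, P x) ↔ ∀ j : Fin l.length, P (l.get j) := by
    intro α l P
    refine ⟨fun h j => h _ (List.get_mem l j), fun h x hx => ?_⟩
    obtain ⟨j, hj⟩ := List.get_of_mem hx
    rw [← hj]
    exact h j
  have hsat : ∀ (yy : I → V → K) (gg : I → ℕ → K),
      (Sat α β δ lin ne (pnt xF aF (Sum.elim (fun v => cu 𝒰 (fun S => yy S v))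
        (fun s : Fin N' => cu 𝒰 (fun S => gg S s)))) ↔
        ∀ᶠ S in (𝒰 : Filter I), p.Ok (Sum.elim (x S) (yy S)) (gg S) 0) := by
    intro yy gg
    have e1 : ∀ S, p.Ok (Sum.elim (x S) (yy S)) (gg S) 0 ↔
        (∀ j : Fin (p.msys 0).length,
          ((p.msys 0).get j).1.val (Sum.elim (x S) (yy S)) N' (gg S) *
          ((p.msys 0).get j).2.1.val (Sum.elim (x S) (yy S)) N' (gg S) =
          ((p.msys 0).get j).2.2.val (Sum.elim (x S) (yy S)) N' (gg S)) ∧
        (∀ j : Fin (p.lsys 0).length,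
          ((p.lsys 0).get j).val (Sum.elim (x S) (yy S)) N' (gg S) = 0) ∧
        (∀ j : Fin (p.nsys 0).length,
          ((p.nsys 0).get j).val (Sum.elim (x S) (yy S)) N' (gg S) ≠ 0) := by
      intro S
      rw [Path.ok_iff (Sum.elim (x S) (yy S)) (gg S) p 0 N' hN'.le, hlist, hlist, hlist]
    simp only [e1, Filter.eventually_and, Filter.eventually_all]
    constructor
    · intro h
      refine ⟨fun j => ?_, fun j => ?_, fun j => ?_⟩
      · have := h.mul j
        simp only [α, β, δ, hval yy gg, ← map_mul] at this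
        exact cu_eq.mp this
      · have := h.lin j
        simp only [lin, hval yy gg] at this
        exact cu_eq_zero.mp this
      · have := h.ne j
        simp only [ne, hval yy gg] at this
        exact cu_ne_zero.mp this
    · rintro ⟨h1, h2, h3⟩
      refine ⟨fun j => ?_, fun j => ?_, fun j => ?_⟩
      · simp only [α, β, δ, hval yy gg, ← map_mul]
        exact cu_eq.mpr (h1 j)
      · simp only [lin, hval yy gg]
        exact cu_eq_zero.mpr (h2 j)
      · simp only [ne, hval yy gg]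
        exact cu_ne_zero.mpr (h3 j)
  let 𝒞F : Fin M → V → UP K 𝒰 := fun i v => cu 𝒰 (fun S => 𝒞 S i v)
  have key := main_G' (K := K) (F := UP K 𝒰) (M := M)
    α β δ lin ne (fun v => outAF N' v) xF hindep aF
    (Sum.elim (fun v => cu 𝒰 (fun S => eval (x S) (f v)))
      (fun s : Fin N' => cu 𝒰 (fun S => g S s)))
    ((hsat (fun S v => eval (x S) (f v)) g).mpr hgS) 𝒞F
    (by
      intro s hs
      choose r hr using cu_surj (K := K) (𝒰 := 𝒰)
      let yy : I → V → K := fun S v => r (s (Sum.inl v)) S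
      let gg : I → ℕ → K := fun S t => if h : t < N' then r (s (Sum.inr ⟨t, h⟩)) S else 0
      have hgg' : ∀ S, ∀ t : Fin N', gg S t = r (s (Sum.inr t)) S := by
        intro S t
        simp only [gg, dif_pos t.2]
      have hs' : s = Sum.elim (fun v => cu 𝒰 (fun S => yy S v))
          (fun t : Fin N' => cu 𝒰 (fun S => gg S t)) := by
        funext t
        rcases t with v | t
        · exact (hr (s (Sum.inl v))).symm
        · simp only [Sum.elim_inr, hgg']
          exact (hr (s (Sum.inr t))).symm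
      rw [hs'] at hs
      have h1 := (hsat yy gg).mp hs
      have h2 : ∀ᶠ S in (𝒰 : Filter I), ∃ i ∈ (Set.univ : Set (Fin M)), yy S = 𝒞 S i := by
        filter_upwards [h1] with S hS
        have h3 : t.Accepts (Sum.elim (x S) (yy S)) L :=
          acc_of_path _ t 0 0 L p hp hmuls (gg S) (fun s hs => absurd hs (Nat.not_lt_zero s)) hS
        obtain ⟨i, hi⟩ := h𝒞 S _ h3
        exact ⟨i, Set.mem_univ _, hi⟩
      obtain ⟨i, -, hi⟩ := ultra_const (𝒰 := 𝒰) Set.univ Set.finite_univ _ h2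
      refine ⟨i, fun v => ?_⟩
      rw [outAF_val, hs']
      show cu 𝒰 (fun S => yy S v) = cu 𝒰 (fun S => 𝒞 S i v)
      refine cu_eq.mpr ?_
      filter_upwards [hi] with S hS
      rw [hS])
    f
    (by
      intro v
      rw [outAF_val]
      exact (cu_aeval x (f v)).symm) D b
  intro h hh
  refine key h fun g hg => hh g ?_
  refine NSComp.mono ?_ hg
  rw [p.msys_length]
  exact Nat.mul_le_mul_right _ hmuls


end Pool.Agent.R562.CT
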