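import Pool.Agent.R562.CT.Det
import Pool.Agent.R562.ND.Upper

/-!
# Substitution in nondeterministic trees
-/

set_option autoImplicit false
set_option linter.unusedSectionVars false

namespace Pool.Agent.R562.CT

open MvPolynomial Filter Pool.Agent.W966.Vf Pool.Agent.W966.Vg Pool.Agent.R562.ND
open Pool.Agent.H515R2.MMR (omega)

section

variable {K ι ι' : Type} [Field K] [Fintype ι] [Fintype ι']

/-- replace the inputs by linear combinations `ψ i` of the new inputs and of the first `n`
results -/
def subLF (n : ℕ) (ψ : ι → LF K ι') (f : LF K ι) : LF K ι' where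
  c := f.c + ∑ v, f.x v * (ψ v).c
  x := fun i => ∑ v, f.x v * (ψ v).x i
  r := fun s => if s < n then ∑ v, f.x v * (ψ v).r s else f.r (s - n)

lemma subLF_val (n : ℕ) (ψ : ι → LF K ι') (f : LF K ι) (x : ι' → K) (l : ℕ) (g : ℕ → K) :
    (subLF n ψ f).val x (n + l) g =
      f.val (fun v => (ψ v).val x n g) l (fun s => g (n + s)) := by
  unfold LF.val subLF
  simp only [Algebra.algebraMap_self, RingHom.id_apply]
  rw [Finset.sum_range_add]
  have h1 : ∑ s ∈ Finset.range n,
      (if s < n then ∑ v, f.x v * (ψ v).r s else f.r (s - n)) * g s =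
      ∑ v, f.x v * ∑ s ∈ Finset.range n, (ψ v).r s * g s := by
    simp only [Finset.mul_sum]
    rw [Finset.sum_comm]
    refine Finset.sum_congr rfl fun s hs => ?_
    rw [if_pos (Finset.mem_range.mp hs), Finset.sum_mul]
    exact Finset.sum_congr rfl fun v _ => by ring
  have h2 : ∑ s ∈ Finset.range l,
      (if n + s < n then ∑ v, f.x v * (ψ v).r (n + s) else f.r (n + s - n)) * g (n + s) =
      ∑ s ∈ Finset.range l, f.r s * g (n + s) := by
    refine Finset.sum_congr rfl fun s _ => ?_
    rw [if_neg (by omega), Nat.add_sub_cancel_left]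
  have h3 : ∑ i, (∑ v, f.x v * (ψ v).x i) * x i = ∑ v, f.x v * ∑ i, (ψ v).x i * x i := by
    simp only [Finset.mul_sum, Finset.sum_mul]
    rw [Finset.sum_comm]
    exact Finset.sum_congr rfl fun v _ => Finset.sum_congr rfl fun i _ => by ring
  rw [h1, h2, h3]
  simp only [mul_add, Finset.sum_add_distrib]
  ring

/-- replace all linear combinations in a tree -/
def mapT (σ : LF K ι → LF K ι') : NTree K ι → NTree K ι'
  | .accept => .accept
  | .reject => .reject
  | .mul f h next => .mul (σ f) (σ h) (mapT σ next)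
  | .div f h next => .div (σ f) (σ h) (mapT σ next)
  | .guess next => .guess (mapT σ next)
  | .test f yes no => .test (σ f) (mapT σ yes) (mapT σ no)
  | .choose m next => .choose m fun i => mapT σ (next i)

lemma upd_shift (n l : ℕ) (g : ℕ → K) (v : K) (s : ℕ) :
    Function.update g (n + l) v (n + s) = Function.update (fun s => g (n + s)) l v s := by
  by_cases h : s = l
  · subst h
    rw [Function.update_self, Function.update_self]
  · rw [Function.update_of_ne (by omega), Function.update_of_ne h]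

lemma mapT_acc (n : ℕ) (ψ : ι → LF K ι') (x : ι' → K) (y : ι → K) (t : NTree K ι) :
    ∀ (l : ℕ) (g : ℕ → K) (L : ℕ), (∀ v, (ψ v).val x n g = y v) →
      ((mapT (subLF n ψ) t).Acc x (n + l) g L ↔ t.Acc y l (fun s => g (n + s)) L) := by
  have hval : ∀ (f : LF K ι) (l : ℕ) (g : ℕ → K), (∀ v, (ψ v).val x n g = y v) →
      (subLF n ψ f).val x (n + l) g = f.val y l (fun s => g (n + s)) := by
    intro f l g hg
    rw [subLF_val]
    congr 1
    funext v
    exact hg v
  have hupd : ∀ (l : ℕ) (g : ℕ → K) (w : K), (∀ v, (ψ v).val x n g = y v) →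
      ∀ v, (ψ v).val x n (Function.update g (n + l) w) = y v := by
    intro l g w hg v
    rw [← hg v]
    exact val_congr2 _ _ _ fun s hs => Function.update_of_ne (by omega) _ _
  have hfun : ∀ (l : ℕ) (g : ℕ → K) (w : K), (fun s => Function.update g (n + l) w (n + s)) =
      Function.update (fun s => g (n + s)) l w := fun l g w => funext fun s => upd_shift n l g w s
  induction t with
  | accept => intro l g L _; exact Iff.rfl
  | reject => intro l g L _; exact Iff.rfl
  | mul f h next ih =>
    intro l g L hg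
    have h1 := ih (l + 1) (Function.update g (n + l)
      (f.val y l (fun s => g (n + s)) * h.val y l (fun s => g (n + s)))) (L - 1) (hupd l g _ hg)
    rw [hfun] at h1
    show (0 < L ∧ (mapT (subLF n ψ) next).Acc x (n + l + 1) (Function.update g (n + l)
      ((subLF n ψ f).val x (n + l) g * (subLF n ψ h).val x (n + l) g)) (L - 1)) ↔ _
    rw [hval f l g hg, hval h l g hg, add_assoc, h1]
    exact Iff.rfl
  | div f h next ih =>
    intro l g L hg
    have h1 := ih (l + 1) (Function.update g (n + l)
      (f.val y l (fun s => g (n + s)) / h.val y l (fun s => g (n + s)))) (L - 1) (hupd l g _ hg)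
    rw [hfun] at h1
    show (0 < L ∧ (subLF n ψ h).val x (n + l) g ≠ 0 ∧
      (mapT (subLF n ψ) next).Acc x (n + l + 1) (Function.update g (n + l)
      ((subLF n ψ f).val x (n + l) g / (subLF n ψ h).val x (n + l) g)) (L - 1)) ↔ _
    rw [hval f l g hg, hval h l g hg, add_assoc, h1]
    exact Iff.rfl
  | guess next ih =>
    intro l g L hg
    refine exists_congr fun w => ?_
    have h1 := ih (l + 1) (Function.update g (n + l) w) L (hupd l g _ hg)
    rw [hfun] at h1
    rw [add_assoc, h1]
  | test f yes no ihy ihn =>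
    intro l g L hg
    show ((subLF n ψ f).val x (n + l) g = 0 ∧ (mapT (subLF n ψ) yes).Acc x (n + l) g L) ∨
      ((subLF n ψ f).val x (n + l) g ≠ 0 ∧ (mapT (subLF n ψ) no).Acc x (n + l) g L) ↔ _
    rw [hval f l g hg, ihy l g L hg, ihn l g L hg]
    exact Iff.rfl
  | choose m next ih =>
    intro l g L hg
    exact exists_congr fun i => ih i l g L hg

end

/-! ### The equation `det A = c` -/

section

variable {K : Type} [Field K] {n : ℕ}

/-- the numerator: the entry `(0, s)` -/
noncomputable def num (K : Type) [Field K] (n s : ℕ) : LF K (Fin n × Fin n ⊕ Unit) where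
  c := 0
  x := Sum.elim (fun v => if v.1.1 = 0 ∧ v.2.1 = s then 1 else 0) fun _ => 0
  r := fun _ => 0

/-- the denominator: the last input -/
noncomputable def den (K : Type) [Field K] (n : ℕ) : LF K (Fin n × Fin n ⊕ Unit) where
  c := 0
  x := Sum.elim (fun _ => 0) fun _ => 1
  r := fun _ => 0

/-- the inputs after the division of the first row: `c` times the quotients and the other rows -/
noncomputable def rows (n : ℕ) (c : K) (v : Fin n × Fin n) : LF K (Fin n × Fin n ⊕ Unit) where
  c := 0
  x := Sum.elim (fun w => if v.1.1 ≠ 0 ∧ w = v then 1 else 0) fun _ => 0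
  r := fun s => if v.1.1 = 0 ∧ v.2.1 = s then c else 0

/-- Divide the entries `(0, s)` with `s = k, …, k + N - 1` by the last input, and continue. -/
noncomputable def divs (fin : NTree K (Fin n × Fin n ⊕ Unit)) :
    ℕ → ℕ → NTree K (Fin n × Fin n ⊕ Unit)
  | 0, _ => fin
  | N + 1, k => .div (num K n k) (den K n) (divs fin N (k + 1))

lemma num_val (x : Fin n × Fin n ⊕ Unit → K) (s l : ℕ) (g : ℕ → K) (hs : s < n) :
    (num K n s).val x l g = x (Sum.inl (⟨0, by omega⟩, ⟨s, hs⟩)) := by
  unfold LF.val num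
  simp only [Algebra.algebraMap_self, RingHom.id_apply, Fintype.sum_sum_type, Sum.elim_inl,
    Sum.elim_inr, zero_mul, Finset.sum_const_zero, add_zero, zero_add, ite_mul, one_mul]
  rw [Finset.sum_eq_single (⟨0, by omega⟩, ⟨s, hs⟩)]
  · simp
  · rintro ⟨i, j⟩ _ hij
    rw [if_neg]
    rintro ⟨h1, h2⟩
    exact hij (Prod.ext (Fin.ext h1) (Fin.ext h2))
  · intro h
    exact absurd (Finset.mem_univ _) h

lemma den_val (x : Fin n × Fin n ⊕ Unit → K) (l : ℕ) (g : ℕ → K) :
    (den K n).val x l g = x (Sum.inr ()) := by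
  unfold LF.val den
  simp

lemma rows_val (c : K) (v : Fin n × Fin n) (x : Fin n × Fin n ⊕ Unit → K) (g : ℕ → K) :
    (rows n c v).val x n g = if v.1.1 = 0 then c * g v.2.1 else x (Sum.inl v) := by
  unfold LF.val rows
  simp only [Algebra.algebraMap_self, RingHom.id_apply, Fintype.sum_sum_type, Sum.elim_inl,
    Sum.elim_inr, zero_mul, Finset.sum_const_zero, add_zero, zero_add, ite_mul, one_mul]
  by_cases h : v.1.1 = 0
  · simp only [h, ne_eq, not_true_eq_false, false_and, if_false, Finset.sum_const_zero, zero_add,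
      true_and, if_true]
    rw [Finset.sum_eq_single v.2.1]
    · rw [if_pos rfl]
    · intro s _ hs
      rw [if_neg (fun h => hs h.symm)]
    · intro h'
      exact absurd (Finset.mem_range.mpr v.2.2) h'
  · simp [h]

lemma divs_acc (fin : NTree K (Fin n × Fin n ⊕ Unit)) (x : Fin n × Fin n ⊕ Unit → K) (N : ℕ) :
    ∀ (k : ℕ) (g : ℕ → K) (L : ℕ), k + N = n →
      (∀ s (hs : s < n), s < k → g s = x (Sum.inl (⟨0, by omega⟩, ⟨s, hs⟩)) / x (Sum.inr ())) →
      ((divs fin N k).Acc x k g L ↔ N ≤ L ∧ (N ≠ 0 → x (Sum.inr ()) ≠ 0) ∧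
        ∃ g' : ℕ → K, (∀ s (hs : s < n), g' s =
          x (Sum.inl (⟨0, by omega⟩, ⟨s, hs⟩)) / x (Sum.inr ())) ∧ (∀ s, n ≤ s → g' s = g s) ∧
          fin.Acc x n g' (L - N)) := by
  induction N with
  | zero =>
    intro k g L hk hg
    obtain rfl : k = n := hk
    constructor
    · intro h
      exact ⟨Nat.zero_le _, fun h0 => absurd rfl h0, g, fun s hs => hg s hs hs,
        fun _ _ => rfl, h⟩
    · rintro ⟨-, -, g', h1, h2, h3⟩
      have : g' = g := by
        funext s
        by_cases hs : s < k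
        · rw [h1 s hs, hg s hs hs]
        · exact h2 s (by omega)
      rw [this] at h3
      exact h3
  | succ N ih =>
    intro k g L hk hg
    have hkn : k < n := by omega
    have h1 : (divs fin (N + 1) k).Acc x k g L ↔ 0 < L ∧ (den K n).val x k g ≠ 0 ∧
        (divs fin N (k + 1)).Acc x (k + 1)
          (Function.update g k ((num K n k).val x k g / (den K n).val x k g)) (L - 1) := Iff.rfl
    rw [h1, ih (k + 1) _ _ (by omega), den_val, num_val _ _ _ _ hkn]
    · constructor
      · rintro ⟨h2, h3, h4, h5, g', h6, h7, h8⟩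
        refine ⟨by omega, fun _ => h3, g', h6, fun s hs => ?_, ?_⟩
        · rw [h7 s hs, Function.update_of_ne (by omega)]
        · rwa [show L - (N + 1) = L - 1 - N by omega]
      · rintro ⟨h2, h3, g', h6, h7, h8⟩
        refine ⟨by omega, h3 (by omega), by omega, fun _ => h3 (by omega), g', h6,
          fun s hs => ?_, ?_⟩
        · rw [h7 s hs, Function.update_of_ne (by omega)]
        · rwa [show L - 1 - N = L - (N + 1) by omega]
    · intro s hs hsk
      rcases Nat.lt_succ_iff_lt_or_eq.mp hsk with h2 | rfl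
      · rw [Function.update_of_ne h2.ne, hg s hs h2]
      · rw [Function.update_self, num_val _ _ _ _ hs, den_val]

/-- the matrix with the first row multiplied by `c / y` -/
noncomputable def resc (c y : K) (A : Matrix (Fin n) (Fin n) K) : Matrix (Fin n) (Fin n) K :=
  fun i j => if i.1 = 0 then c * (A i j / y) else A i j

lemma det_resc (hn : 0 < n) (c y : K) (A : Matrix (Fin n) (Fin n) K) :
    (resc c y A).det = c * (A.det / y) := by
  obtain ⟨k, rfl⟩ : ∃ k, n = k + 1 := ⟨n - 1, by omega⟩
  have h1 : resc c y A = A.updateRow 0 ((c / y) • A 0) := by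
    ext i j
    unfold resc
    by_cases hi : i = 0
    · subst hi
      rw [Matrix.updateRow_self]
      simp
      ring
    · have hi' : i.1 ≠ 0 := fun h => hi (Fin.ext h)
      rw [Matrix.updateRow_ne hi]
      simp only [hi', if_false]
  rw [h1, Matrix.det_updateRow_smul, Matrix.updateRow_eq_self]
  ring

lemma ent_surj (z : Fin n × Fin n → K) : ent (fun i j => z (i, j)) = z := rfl

/-- The tree which certifies the determinant. -/
theorem exists_cert (hn : 0 < n) (c : K) (t : NTree K (Fin n × Fin n)) :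
    ∃ t' : NTree K (Fin n × Fin n ⊕ Unit), ∀ (A : Matrix (Fin n) (Fin n) K) (y : K) (L : ℕ),
      t'.Accepts (Sum.elim (ent A) fun _ => y) (L + n) ↔
        y ≠ 0 ∧ t.Accepts (ent (resc c y A)) L := by
  refine ⟨divs (mapT (subLF n (rows n c)) t) n 0, fun A y L => ?_⟩
  have h1 := divs_acc (mapT (subLF n (rows n c)) t) (Sum.elim (ent A) fun _ => y) n 0 0 (L + n)
    (by omega) (fun s _ hs => absurd hs (Nat.not_lt_zero s))
  unfold NTree.Accepts
  rw [h1, Nat.add_sub_cancel]
  have hval : ∀ g' : ℕ → K, (∀ s (hs : s < n), g' s =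
      (Sum.elim (ent A) fun _ => y : Fin n × Fin n ⊕ Unit → K) (Sum.inl (⟨0, by omega⟩, ⟨s, hs⟩)) /
      (Sum.elim (ent A) fun _ => y : Fin n × Fin n ⊕ Unit → K) (Sum.inr ())) →
      ∀ v, (rows n c v).val (Sum.elim (ent A) fun _ => y) n g' = ent (resc c y A) v := by
    intro g' hg' v
    rw [rows_val]
    simp only [ent, resc, Sum.elim_inl, Sum.elim_inr]
    split_ifs with h
    · rw [hg' _ v.2.2]
      simp only [ent, Sum.elim_inl]
      congr 2
      congr 1
      exact Fin.ext h.symm
    · rfl
  have hacc : ∀ g' : ℕ → K, (∀ s (hs : s < n), g' s =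
      (Sum.elim (ent A) fun _ => y : Fin n × Fin n ⊕ Unit → K) (Sum.inl (⟨0, by omega⟩, ⟨s, hs⟩)) /
      (Sum.elim (ent A) fun _ => y : Fin n × Fin n ⊕ Unit → K) (Sum.inr ())) →
      (∀ s, n ≤ s → g' s = 0) →
      ((mapT (subLF n (rows n c)) t).Acc (Sum.elim (ent A) fun _ => y) n g' L ↔
        t.Acc (ent (resc c y A)) 0 0 L) := by
    intro g' h2 h3
    have h4 := mapT_acc n (rows n c) (Sum.elim (ent A) fun _ => y) (ent (resc c y A)) t 0 g' L
      (hval g' h2)
    rw [add_zero] at h4
    rw [h4]
    have h5 : (fun s => g' (n + s)) = 0 := funext fun s => h3 (n + s) (Nat.le_add_right n s)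
    rw [h5]
  constructor
  · rintro ⟨-, h2, g', h3, h4, h5⟩
    exact ⟨h2 (by omega), (hacc g' h3 fun s hs => h4 s hs).mp h5⟩
  · rintro ⟨h2, h3⟩
    let g' : ℕ → K := fun s => if hs : s < n then
      (Sum.elim (ent A) fun _ => y : Fin n × Fin n ⊕ Unit → K) (Sum.inl (⟨0, by omega⟩, ⟨s, hs⟩)) /
      (Sum.elim (ent A) fun _ => y : Fin n × Fin n ⊕ Unit → K) (Sum.inr ()) else 0
    have h4 : ∀ s (hs : s < n), g' s =
      (Sum.elim (ent A) fun _ => y : Fin n × Fin n ⊕ Unit → K) (Sum.inl (⟨0, by omega⟩, ⟨s, hs⟩)) /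
      (Sum.elim (ent A) fun _ => y : Fin n × Fin n ⊕ Unit → K) (Sum.inr ()) := fun s hs => by
        simp only [g', dif_pos hs]
    have h5 : ∀ s, n ≤ s → g' s = 0 := fun s hs => by
      simp only [g', dif_neg (not_lt.mpr hs)]
    exact ⟨by omega, fun _ => h2, g', h4, fun s hs => (h5 s hs).trans rfl, (hacc g' h4 h5).mpr h3⟩

/-- **Deciding `det A = c`.** -/
theorem det_eq_lower [IsAlgClosed K] [CharZero K] {L : ℕ} {c : K} (hc : c ≠ 0)
    {t : NTree K (Fin n × Fin n)} (H : ∀ A, t.Accepts (ent A) L ↔ A.det = c) :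
    ((n / 3 : ℕ) : ℝ) ^ omega ≤ 18 * (L + n) := by
  rcases Nat.eq_zero_or_pos n with rfl | hn
  · have := Pool.Agent.Y538.Par.two_le_omega
    rw [Nat.zero_div, Nat.cast_zero, Real.zero_rpow (by linarith)]
    positivity
  obtain ⟨t', ht'⟩ := exists_cert hn c t
  have hiff : ∀ (A : Matrix (Fin n) (Fin n) K) (y : K),
      t'.Accepts (Sum.elim (ent A) fun _ => y) (L + n) ↔ y ≠ 0 ∧ y = A.det := by
    intro A y
    rw [ht', H, det_resc hn]
    refine and_congr_right fun hy => ?_
    rw [mul_eq_left₀ hc, div_eq_one_iff_eq hy, eq_comm]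
  have key : Certifies t' (L + n) fun _ : Unit => SC.detP K n := by
    refine ⟨1, fun p hp => ?_⟩
    have : Infinite K := CharZero.infinite K
    have hdet : SC.detP K n ≠ 0 := by
      intro h
      have h1 := SC.eval_detP (1 : Matrix (Fin n) (Fin n) K)
      rw [h, map_zero, Matrix.det_one] at h1
      exact one_ne_zero h1.symm
    obtain ⟨x, hx⟩ : ∃ x, eval x (p * SC.detP K n) ≠ 0 := by
      by_contra hcon
      push Not at hcon
      exact (mul_ne_zero hp hdet) (MvPolynomial.funext fun z => by rw [hcon z, map_zero])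
    rw [map_mul] at hx
    set A : Matrix (Fin n) (Fin n) K := fun i j => x (i, j) with hA
    have hxA : ent A = x := ent_surj x
    have hev : eval x (SC.detP K n) = A.det := SC.eval_detP A
    refine ⟨x, left_ne_zero_of_mul hx, ?_, fun _ _ => A.det, fun y hy => ⟨0, ?_⟩⟩
    · show t'.Accepts (Sum.elim x fun _ => eval x (SC.detP K n)) (L + n)
      rw [hev, ← hxA]
      refine (hiff A A.det).mpr ⟨?_, rfl⟩
      rw [← hev]
      exact right_ne_zero_of_mul hx
    · have h1 : (Sum.elim x y : Fin n × Fin n ⊕ Unit → K) = Sum.elim (ent A) fun _ => y () := rfl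
      rw [h1, hiff] at hy
      funext u
      exact hy.2
  have := det_lower key
  exact_mod_cast this

end

end Pool.Agent.R562.CT
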